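import Pool.Agent.E8helper27.CB.Dual

/-! Assembly of the critical exponents (helper27, project CB). -/

namespace E8h27.CB

open Finset

theorem psd_iff {V : Type} [Fintype V] (M : Matrix V V ℝ) :
    M.PosSemidef ↔ Psd (fun i j => M i j) := by
  classical
  rw [Matrix.posSemidef_iff_dotProduct_mulVec]
  have e : ∀ x : V → ℝ, star x ⬝ᵥ (M.mulVec x) = ∑ i, ∑ j, x i * M i j * x j := by
    intro x
    simp only [dotProduct, Matrix.mulVec, Pi.star_apply, star_trivial]
    apply sum_congr rfl; intro i _
    rw [mul_sum]
    apply sum_congr rfl; intro j _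
    ring
  constructor
  · rintro ⟨h1, h2⟩
    refine ⟨fun i j => ?_, fun x => ?_⟩
    · have := h1.apply j i
      simpa using this
    · rw [← e x]; exact h2 x
  · rintro ⟨h1, h2⟩
    refine ⟨?_, fun x => ?_⟩
    · ext i j
      simp only [Matrix.conjTranspose_apply, star_trivial]
      exact (h1 i j).symm
    · rw [e x]; exact h2 x

theorem pw_eq {x b : ℝ} (hb : 0 < b) : pw x b = x ^ b := by
  unfold pw
  split_ifs with h
  · rw [h, Real.zero_rpow hb.ne']
  · rfl

theorem good_of {V : Type} [Fintype V] {G : SimpleGraph V} {a : ℝ} (ha : 0 < a)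
    (h : ∀ b, a ≤ b → ∀ A : V → V → ℝ, Psd A → (∀ i j, 0 ≤ A i j) →
      (∀ i j, i ≠ j → ¬ G.Adj i j → A i j = 0) →
      ∀ x : V → ℝ, 0 ≤ ∑ i, ∑ j, x i * A i j ^ b * x j) : Good G a := by
  intro b hb A hA
  rw [psd_iff]
  have hA1 := (psd_iff A).mp hA.1
  constructor
  · intro i j
    simp only [Matrix.map_apply]
    have hsy : A i j = A j i := hA1.1 i j
    rw [hsy]
  · intro x
    have h1 := h b hb (fun i j => A i j) hA1 hA.2.1 hA.2.2 x
    simp only [Matrix.map_apply, pw_eq (lt_of_lt_of_le ha hb)]
    exact h1

theorem not_good_of {V : Type} [Fintype V] {G : SimpleGraph V} {a b : ℝ} (hab : a ≤ b)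
    (hb : 0 < b) {A : V → V → ℝ} (hA : Psd A) (hA0 : ∀ i j, 0 ≤ A i j)
    (hAG : ∀ i j, i ≠ j → ¬ G.Adj i j → A i j = 0) {x : V → ℝ}
    (hx : ∑ i, ∑ j, x i * A i j ^ b * x j < 0) : ¬ Good G a := by
  intro h
  have h1 := h b hab (Matrix.of A) ⟨(psd_iff _).mpr hA, hA0, hAG⟩
  rw [psd_iff] at h1
  have h2 := h1.2 x
  simp only [Matrix.map_apply, Matrix.of_apply, pw_eq hb] at h2
  linarith

/-- The exact value for graphs with dominating vertices `S` and bipartite rest. -/
theorem ce_val (hFH : S_FH) (hLOW : S_LOWK) {V : Type} [Fintype V] (G : SimpleGraph V)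
    (S : Finset V) (c : V → Bool) (hS : ∀ s ∈ S, ∀ v, v ≠ s → G.Adj s v)
    (hc : ∀ u v, u ∉ S → v ∉ S → G.Adj u v → c u ≠ c v)
    (hP : ∃ u v w, u ∉ S ∧ v ∉ S ∧ w ∉ S ∧ v ≠ w ∧ G.Adj u v ∧ G.Adj u w) :
    IsCE G ((S.card : ℝ) + 1) := by
  classical
  have hS0 : (0 : ℝ) ≤ S.card := Nat.cast_nonneg _
  constructor
  · apply good_of (by positivity)
    intro b hb A hA hA0 hAG x
    exact main_pos hFH hA hA0 hAG S hS c hc b hb x
  · intro a ha
    by_contra hlt
    push Not at hlt
    obtain ⟨u, v, w, hu, hv, hw, hvw, huv, huw⟩ := hP
    obtain ⟨b, hb1, hb2⟩ := exists_between (max_lt hlt (lt_add_one (S.card : ℝ)))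
    have hb3 : a < b := lt_of_le_of_lt (le_max_left _ _) hb1
    have hb4 : (S.card : ℝ) < b := lt_of_le_of_lt (le_max_right _ _) hb1
    obtain ⟨A, hA, hA0, hAG, x, hx⟩ := hLOW S.card b hb4 hb2 V G (insert u S) v w
      (card_insert_of_notMem hu)
      (by
        intro s hs t ht hst
        rcases mem_insert.mp hs with rfl | hs
        · rcases mem_insert.mp ht with rfl | ht
          · exact absurd rfl hst
          · exact (hS t ht s hst).symm
        · exact hS s hs t (Ne.symm hst))
      (by
        intro h
        rcases mem_insert.mp h with h | h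
        · exact huv.ne h.symm
        · exact hv h)
      (by
        intro h
        rcases mem_insert.mp h with h | h
        · exact huw.ne h.symm
        · exact hw h)
      hvw
      (by
        intro s hs
        rcases mem_insert.mp hs with rfl | hs
        · exact ⟨huv, huw⟩
        · exact ⟨hS s hs v (fun h => hv (h ▸ hs)), hS s hs w (fun h => hw (h ▸ hs))⟩)
    exact not_good_of hb3.le (lt_of_le_of_lt hS0 hb4) hA hA0 hAG hx ha

theorem ce_cone (hFH : S_FH) (hLOW : S_LOWK) {V : Type} [Fintype V] (G : SimpleGraph V)
    (S : Finset V) (c : V → Bool) (hS : ∀ s ∈ S, ∀ v, v ≠ s → G.Adj s v)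
    (hc : ∀ u v, u ∉ S → v ∉ S → G.Adj u v → c u ≠ c v)
    (hP : ∃ u v w, u ∉ S ∧ v ∉ S ∧ w ∉ S ∧ v ≠ w ∧ G.Adj u v ∧ G.Adj u w) :
    IsCE (cone G) ((S.card : ℝ) + 2) := by
  classical
  obtain ⟨u, v, w, hu, hv, hw, hvw, huv, huw⟩ := hP
  have hmem : ∀ z : V, some z ∈ insert none (S.map Function.Embedding.some) ↔ z ∈ S := by
    intro z; simp
  have h := ce_val hFH hLOW (cone G) (insert none (S.map Function.Embedding.some))
    (fun o => o.elim true c)
    (by
      intro s hs z hz
      match s, z, hs, hz with
      | none, none, _, hz => exact absurd rfl hz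
      | none, some _, _, _ => exact trivial
      | some _, none, _, _ => exact trivial
      | some s, some z, hs, hz =>
        exact hS s ((hmem s).mp hs) z (fun h => hz (by rw [h])))
    (by
      intro y z hy hz hyz
      match y, z, hy, hz, hyz with
      | none, _, hy, _, _ => exact absurd (mem_insert_self _ _) hy
      | some _, none, _, hz, _ => exact absurd (mem_insert_self _ _) hz
      | some y, some z, hy, hz, hyz =>
        exact hc y z (fun h => hy ((hmem y).mpr h)) (fun h => hz ((hmem z).mpr h)) hyz)
    ⟨some u, some v, some w, fun h => hu ((hmem u).mp h), fun h => hv ((hmem v).mp h),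
      fun h => hw ((hmem w).mp h), fun h => hvw (Option.some_injective _ h), huv, huw⟩
  have hcard : (insert none (S.map Function.Embedding.some)).card = S.card + 1 := by
    rw [card_insert_of_notMem (by simp), card_map]
  rw [hcard] at h
  push_cast at h
  have e : (S.card : ℝ) + 1 + 1 = S.card + 2 := by ring
  rw [e] at h
  exact h

/-- graphs with all degrees at most one: exponent zero -/
theorem ce_match {V : Type} [Fintype V] (G : SimpleGraph V)
    (hM : ∀ u v w, G.Adj u v → G.Adj u w → v = w) (hE : ∃ u v, G.Adj u v) :
    IsCE G 0 := by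
  classical
  constructor
  · intro b hb A hA
    rw [psd_iff]
    have hA1 := (psd_iff A).mp hA.1
    obtain ⟨_, hA0, hAG⟩ := hA
    have hpw0 : ∀ x, 0 ≤ x → 0 ≤ pw x b := by
      intro x hx
      unfold pw
      split_ifs
      · exact le_refl _
      · exact Real.rpow_nonneg hx _
    have hdom : ∀ i j, i ≠ j → pw (A i j) b ≤ Real.sqrt (pw (A i i) b) * Real.sqrt (pw (A j j) b) := by
      intro i j hij
      have hdet : A i j * A i j ≤ A i i * A j j := by
        have hq : ∀ s t : ℝ, 0 ≤ s * A i i * s + s * A i j * t + t * A j i * s + t * A j j * t := by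
          intro s t
          rw [← form_two (fun i j => A i j) i j s t]
          exact hA1.2 _
        have hsym : A i j = A j i := hA1.1 i j
        by_cases hz : A i i = 0
        · have hz2 : A i j = 0 := by
            by_contra hne
            have h := hq (-(A j j + 1) / (2 * A i j)) 1
            rw [hz, ← hsym] at h
            have h2 : (-(A j j + 1) / (2 * A i j)) * A i j = -(A j j + 1) / 2 := by
              field_simp
            nlinarith [h, h2]
          rw [hz, hz2]; simp
        · have hp : 0 < A i i := lt_of_le_of_ne (hA0 i i) (Ne.symm hz)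
          have h := hq (- A i j) (A i i)
          rw [← hsym] at h
          have h3 : 0 ≤ A i i * (A i i * A j j - A i j * A i j) := by nlinarith [h]
          have h4 := nonneg_of_mul_nonneg_right h3 hp
          linarith
      by_cases h0 : A i j = 0
      · have : pw (A i j) b = 0 := by rw [h0]; simp [pw]
        rw [this]; positivity
      · have hpos : 0 < A i j := lt_of_le_of_ne (hA0 i j) (Ne.symm h0)
        have hprod : 0 < A i i * A j j := lt_of_lt_of_le (mul_pos hpos hpos) hdet
        have hii : A i i ≠ 0 := by intro h; rw [h] at hprod; simp at hprod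
        have hjj : A j j ≠ 0 := by intro h; rw [h] at hprod; simp at hprod
        unfold pw
        rw [if_neg h0, if_neg hii, if_neg hjj, ← Real.sqrt_mul (Real.rpow_nonneg (hA0 i i) _),
          ← Real.mul_rpow (hA0 i i) (hA0 j j)]
        apply Real.le_sqrt_of_sq_le
        rw [sq, ← Real.mul_rpow hpos.le hpos.le]
        exact Real.rpow_le_rpow (by positivity) hdet hb
    constructor
    · intro i j
      simp only [Matrix.map_apply]
      have hsy : A i j = A j i := hA1.1 i j
      rw [hsy]
    · intro x
      simp only [Matrix.map_apply]
      set w : V → ℝ := fun i => x i * x i * pw (A i i) b with hw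
      have hw0 : ∀ i, 0 ≤ w i := fun i => mul_nonneg (mul_self_nonneg _) (hpw0 _ (hA0 i i))
      have hterm : ∀ i j, (if i = j then w i else 0) - (if G.Adj i j then (w i + w j) / 2 else 0) ≤
          x i * pw (A i j) b * x j := by
        intro i j
        by_cases hij : i = j
        · subst hij
          simp only [if_true, SimpleGraph.irrefl, if_false, sub_zero, hw]
          apply le_of_eq; ring
        · rw [if_neg hij]
          by_cases hadj : G.Adj i j
          · rw [if_pos hadj]
            have h1 := hdom i j hij
            have h2 := Real.mul_self_sqrt (hpw0 _ (hA0 i i))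
            have h3 := Real.mul_self_sqrt (hpw0 _ (hA0 j j))
            set p := Real.sqrt (pw (A i i) b)
            set r := Real.sqrt (pw (A j j) b)
            have h4 : w i = (x i * p) * (x i * p) := by simp only [hw]; rw [← h2]; ring
            have h5 : w j = (x j * r) * (x j * r) := by simp only [hw]; rw [← h3]; ring
            have h6 : 0 ≤ pw (A i j) b := hpw0 _ (hA0 i j)
            have h7 : - (|x i * x j| * (p * r)) ≤ x i * pw (A i j) b * x j := by
              have h8 : |x i * pw (A i j) b * x j| ≤ |x i * x j| * (p * r) := by
                have : x i * pw (A i j) b * x j = (x i * x j) * pw (A i j) b := by ring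
                rw [this, abs_mul, abs_of_nonneg h6]
                exact mul_le_mul_of_nonneg_left h1 (abs_nonneg _)
              linarith [neg_abs_le (x i * pw (A i j) b * x j)]
            have hp0 : 0 ≤ p := Real.sqrt_nonneg _
            have hr0 : 0 ≤ r := Real.sqrt_nonneg _
            have h9 : |x i * x j| * (p * r) = (|x i| * p) * (|x j| * r) := by
              rw [abs_mul]; ring
            have h10 : (x i * p) * (x i * p) = (|x i| * p) * (|x i| * p) := by
              have := abs_mul_abs_self (x i)
              calc (x i * p) * (x i * p) = (x i * x i) * (p * p) := by ring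
                _ = (|x i| * |x i|) * (p * p) := by rw [this]
                _ = _ := by ring
            have h11 : (x j * r) * (x j * r) = (|x j| * r) * (|x j| * r) := by
              have := abs_mul_abs_self (x j)
              calc (x j * r) * (x j * r) = (x j * x j) * (r * r) := by ring
                _ = (|x j| * |x j|) * (r * r) := by rw [this]
                _ = _ := by ring
            rw [h9] at h7
            rw [h4, h5, h10, h11]
            nlinarith [sq_nonneg (|x i| * p - |x j| * r)]
          · rw [if_neg hadj, hAG i j hij hadj]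
            simp [pw]
      have hsum : ∑ i, ∑ j, ((if i = j then w i else 0) -
          (if G.Adj i j then (w i + w j) / 2 else 0)) ≤ ∑ i, ∑ j, x i * pw (A i j) b * x j :=
        sum_le_sum (fun i _ => sum_le_sum (fun j _ => hterm i j))
      refine le_trans ?_ hsum
      have hdeg : ∀ i, ∑ j, (if G.Adj i j then w i / 2 else 0) ≤ w i / 2 := by
        intro i
        rw [← sum_filter, sum_const, nsmul_eq_mul]
        have hc1 : (univ.filter (fun j => G.Adj i j)).card ≤ 1 := by
          rw [card_le_one]
          intro a ha b hb
          exact hM i a b (mem_filter.mp ha).2 (mem_filter.mp hb).2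
        have hc2 : ((univ.filter (fun j => G.Adj i j)).card : ℝ) ≤ 1 := by exact_mod_cast hc1
        nlinarith [hw0 i]
      have e1 : ∑ i, ∑ j, (if G.Adj i j then w j / 2 else 0) =
          ∑ i, ∑ j, (if G.Adj i j then w i / 2 else 0) := by
        rw [sum_comm]
        apply sum_congr rfl; intro i _
        apply sum_congr rfl; intro j _
        by_cases h : G.Adj i j
        · rw [if_pos h, if_pos h.symm]
        · rw [if_neg h, if_neg (fun h' => h h'.symm)]
      have e2 : ∑ i, ∑ j, ((if i = j then w i else 0) -
          (if G.Adj i j then (w i + w j) / 2 else 0)) =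
          ∑ i, w i - (∑ i, ∑ j, (if G.Adj i j then w i / 2 else 0) +
            ∑ i, ∑ j, (if G.Adj i j then w j / 2 else 0)) := by
        rw [← sum_add_distrib, ← sum_sub_distrib]
        apply sum_congr rfl; intro i _
        rw [sum_sub_distrib, ← sum_add_distrib]
        congr 1
        · simp
        · apply sum_congr rfl; intro j _
          by_cases h : G.Adj i j
          · simp only [if_pos h]; ring
          · simp only [if_neg h]; ring
      rw [e2, e1]
      have h3 : ∑ i, ∑ j, (if G.Adj i j then w i / 2 else 0) ≤ ∑ i, w i / 2 :=
        sum_le_sum (fun i _ => hdeg i)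
      have h4 : ∑ i, w i / 2 = (∑ i, w i) / 2 := by rw [sum_div]
      linarith
  · intro a ha
    by_contra hlt
    push Not at hlt
    obtain ⟨u, v, huv⟩ := hE
    -- the matrix with rows 2 1, 1 2 on the edge
    let f : V → ℝ := fun i => if i = u then 1 else if i = v then 1 else 0
    let A : Matrix V V ℝ := Matrix.of (fun i j => f i * f j + (if i = j then f i else 0))
    have huv' : u ≠ v := huv.ne
    have hA : InP G A := by
      refine ⟨?_, ?_, ?_⟩
      · rw [psd_iff]
        constructor
        · intro i j
          simp only [A, Matrix.of_apply]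
          by_cases h : i = j
          · rw [h]
          · rw [if_neg h, if_neg (Ne.symm h)]; ring
        · intro x
          simp only [A, Matrix.of_apply]
          have e : ∑ i, ∑ j, x i * (f i * f j + (if i = j then f i else 0)) * x j =
              (∑ i, x i * f i) * (∑ j, x j * f j) + ∑ i, x i * f i * x i := by
            rw [sum_mul_sum, ← sum_add_distrib]
            apply sum_congr rfl; intro i _
            have : ∑ j, x i * (f i * f j + (if i = j then f i else 0)) * x j =
                ∑ j, (x i * f i * (x j * f j) + (if i = j then x i * f i * x j else 0)) := by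
              apply sum_congr rfl; intro j _
              by_cases h : i = j
              · simp only [if_pos h]; ring
              · simp only [if_neg h]; ring
            rw [this, sum_add_distrib]
            simp
          rw [e]
          have h1 : 0 ≤ (∑ i, x i * f i) * (∑ j, x j * f j) := mul_self_nonneg _
          have h2 : 0 ≤ ∑ i, x i * f i * x i := by
            apply sum_nonneg; intro i _
            have : 0 ≤ f i := by simp only [f]; split_ifs <;> norm_num
            nlinarith [mul_nonneg this (mul_self_nonneg (x i))]
          linarith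
      · intro i j
        simp only [A, Matrix.of_apply, f]
        split_ifs <;> norm_num
      · intro i j hij hadj
        simp only [A, Matrix.of_apply, if_neg hij, add_zero]
        by_contra hne
        have hi : f i ≠ 0 := left_ne_zero_of_mul hne
        have hj : f j ≠ 0 := right_ne_zero_of_mul hne
        have hi' : i = u ∨ i = v := by
          by_contra hcon; push Not at hcon; exact hi (by simp [f, hcon.1, hcon.2])
        have hj' : j = u ∨ j = v := by
          by_contra hcon; push Not at hcon; exact hj (by simp [f, hcon.1, hcon.2])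
        rcases hi' with rfl | rfl <;> rcases hj' with rfl | rfl
        · exact hij rfl
        · exact hadj huv
        · exact hadj huv.symm
        · exact hij rfl
    have h1 := ha a (le_refl _) A hA
    rw [psd_iff] at h1
    have h2 := h1.2 (fun i => (if i = u then 1 else 0) + (if i = v then (-1) else 0))
    rw [form_two] at h2
    have e11 : (A.map fun x => pw x a) u u = 2 ^ a := by
      simp [A, f, pw]; norm_num
    have e12 : (A.map fun x => pw x a) u v = 1 := by
      simp [A, f, pw, huv', huv'.symm]
    have e21 : (A.map fun x => pw x a) v u = 1 := by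
      simp [A, f, pw, huv'.symm]
    have e22 : (A.map fun x => pw x a) v v = 2 ^ a := by
      simp [A, f, pw, huv'.symm]; norm_num
    rw [e11, e12, e21, e22] at h2
    have h3 : (2:ℝ) ^ a < 1 := Real.rpow_lt_one_of_one_lt_of_neg (by norm_num) hlt
    linarith

/-- cone over a graph with all degrees at most one: exponent one -/
theorem ce_match_cone (hLOW : S_LOWK) (hMT : S_MATCH) {V : Type} [Fintype V]
    (G : SimpleGraph V) (hM : ∀ u v w, G.Adj u v → G.Adj u w → v = w)
    (hE : ∃ u v, G.Adj u v) : IsCE (cone G) 1 := by
  classical
  constructor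
  · apply good_of one_pos
    intro b hb A hA hA0 hAG x
    apply hMT V G hM A b hb hA hA0
    intro u v huv hadj
    exact hAG (some u) (some v) (fun h => huv (Option.some_injective _ h)) hadj
  · intro a ha
    by_contra hlt
    push Not at hlt
    obtain ⟨u, v, huv⟩ := hE
    obtain ⟨b, hb1, hb2⟩ := exists_between (max_lt hlt (zero_lt_one (α := ℝ)))
    have hb3 : a < b := lt_of_le_of_lt (le_max_left _ _) hb1
    have hb4 : (0 : ℝ) < b := lt_of_le_of_lt (le_max_right _ _) hb1
    obtain ⟨A, hA, hA0, hAG, x, hx⟩ := hLOW 0 b (by simpa using hb4) (by simpa using hb2)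
      (Option V) (cone G) {none} (some u) (some v) (by simp)
      (by
        intro s hs t ht hst
        rw [mem_singleton] at hs ht
        exact absurd (hs.trans ht.symm) hst)
      (by simp) (by simp) (fun h => huv.ne (Option.some_injective _ h))
      (by
        intro s hs
        rw [mem_singleton] at hs
        subst hs
        exact ⟨trivial, trivial⟩)
    exact not_good_of hb3.le hb4 hA hA0 hAG hx ha

end E8h27.CB
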