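import Pool.Agent.E8helper27.CB.Dual

/-! One sided completions and their gluing (helper27, project CB2). -/

namespace E8h27.CB

open Finset

variable {V : Type} [Fintype V]

/-- a positive semidefinite matrix with the diagonal of `D`, below `D` on the edges -/
def OSC (G : SimpleGraph V) (D : V → V → ℝ) : Prop :=
  ∃ N : V → V → ℝ, Psd N ∧ (∀ i, N i i = D i i) ∧ ∀ i j, G.Adj i j → N i j ≤ D i j

theorem form_add [DecidableEq V] {N : V → V → ℝ} (hN : ∀ i j, N i j = N j i) (x : V → ℝ) (w : V)
    (t : ℝ) :
    ∑ a, ∑ b, (x a + (if a = w then t else 0)) * N a b * (x b + (if b = w then t else 0)) =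
      (∑ a, ∑ b, x a * N a b * x b) + 2 * t * (∑ a, x a * N a w) + t * t * N w w := by
  have e : ∀ a b, (x a + (if a = w then t else 0)) * N a b * (x b + (if b = w then t else 0)) =
      x a * N a b * x b + (if b = w then x a * N a b * t else 0) +
      (if a = w then t * N a b * x b else 0) +
      (if a = w then (if b = w then t * N a b * t else 0) else 0) := by
    intro a b
    split_ifs <;> ring
  have e2 : ∑ a, ∑ b, (if a = w then t * N a b * x b else 0) = t * ∑ a, x a * N a w := by
    rw [sum_comm]
    simp only [sum_ite_eq', mem_univ, if_true]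
    rw [mul_sum]
    apply sum_congr rfl; intro b _
    rw [hN w b]; ring
  have e3 : ∑ a, ∑ b, (if b = w then x a * N a b * t else 0) = t * ∑ a, x a * N a w := by
    simp only [sum_ite_eq', mem_univ, if_true]
    rw [mul_sum]
    apply sum_congr rfl; intro b _
    ring
  have e4 : ∑ a, ∑ b, (if a = w then (if b = w then t * N a b * t else 0) else 0) =
      t * t * N w w := by
    have : ∀ a, ∑ b, (if a = w then (if b = w then t * N a b * t else 0) else 0) =
        if a = w then t * N a w * t else 0 := by
      intro a
      by_cases h : a = w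
      · simp [h]
      · simp [h]
    rw [sum_congr rfl (fun a _ => this a)]
    simp only [sum_ite_eq', mem_univ, if_true]
    ring
  calc _ = ∑ a, ∑ b, (x a * N a b * x b + (if b = w then x a * N a b * t else 0) +
      (if a = w then t * N a b * x b else 0) +
      (if a = w then (if b = w then t * N a b * t else 0) else 0)) :=
        sum_congr rfl (fun a _ => sum_congr rfl (fun b _ => e a b))
    _ = _ := by
      simp only [sum_add_distrib]
      rw [e2, e3, e4]
      ring

theorem psd_cs {N : V → V → ℝ} (hN : Psd N) (x : V → ℝ) (w : V) :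
    (∑ a, x a * N a w) ^ 2 ≤ (∑ a, ∑ b, x a * N a b * x b) * N w w := by
  classical
  set S := ∑ a, ∑ b, x a * N a b * x b with hS
  set α := ∑ a, x a * N a w with hα
  have hq : ∀ t : ℝ, 0 ≤ S + 2 * t * α + t * t * N w w := by
    intro t
    rw [hS, hα, ← form_add hN.1 x w t]
    exact hN.2 _
  have hw : 0 ≤ N w w := by
    have h := hN.2 (fun a => (fun _ => (0:ℝ)) a + (if a = w then 1 else 0))
    rw [form_add hN.1 (fun _ => (0:ℝ)) w 1] at h
    simpa using h
  rcases eq_or_lt_of_le hw with h0 | hpos
  · have hα0 : α = 0 := by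
      by_contra hne
      have h := hq (-(S + 1) / (2 * α))
      rw [← h0] at h
      have h2 : 2 * (-(S + 1) / (2 * α)) * α = -(S + 1) := by field_simp
      linarith
    rw [hα0, ← h0]; simp
  · have h := hq (-α / N w w)
    have h2 : S + 2 * (-α / N w w) * α + (-α / N w w) * (-α / N w w) * N w w =
        S - α ^ 2 / N w w := by
      field_simp
      ring
    rw [h2] at h
    have h3 : α ^ 2 / N w w ≤ S := by linarith
    rwa [div_le_iff₀ hpos] at h3

theorem psd_diag {N : V → V → ℝ} (hN : Psd N) (w : V) : 0 ≤ N w w := by
  classical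
  have h := hN.2 (fun a => (fun _ => (0:ℝ)) a + (if a = w then 1 else 0))
  rw [form_add hN.1 (fun _ => (0:ℝ)) w 1] at h
  simpa using h

theorem psd_two {N : V → V → ℝ} (hN : Psd N) (i w : V) : N i w * N i w ≤ N i i * N w w := by
  classical
  have h := psd_cs hN (fun a => if a = i then 1 else 0) w
  simp only [ite_mul, one_mul, zero_mul, sum_ite_eq', mem_univ, if_true, mul_ite, mul_one,
    mul_zero] at h
  rw [sq] at h
  exact h

theorem osc_bip (G : SimpleGraph V) (c : V → Bool) (h : ∀ u v, G.Adj u v → c u ≠ c v)
    {D : V → V → ℝ} (hD0 : ∀ i, 0 ≤ D i i) (hD : ∀ i j, D i j * D i j ≤ D i i * D j j) :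
    OSC G D := by
  classical
  set r : V → ℝ := fun i => (if c i then 1 else -1) * Real.sqrt (D i i) with hr
  refine ⟨fun i j => r i * r j, ⟨fun i j => mul_comm _ _, ?_⟩, ?_, ?_⟩
  · intro x
    have e : ∑ i, ∑ j, x i * (r i * r j) * x j = (∑ i, x i * r i) * (∑ j, x j * r j) := by
      rw [sum_mul_sum]
      apply sum_congr rfl; intro i _
      apply sum_congr rfl; intro j _
      ring
    rw [e]
    exact mul_self_nonneg _
  · intro i
    have h1 := Real.mul_self_sqrt (hD0 i)
    simp only [hr]
    by_cases hci : c i
    · simp only [hci, if_true, one_mul]; exact h1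
    · simp only [hci]
      simpa using h1
  · intro i j hadj
    have h3 : |D i j| ≤ Real.sqrt (D i i) * Real.sqrt (D j j) := by
      rw [← Real.sqrt_mul (hD0 i)]
      apply Real.abs_le_sqrt
      rw [sq]; exact hD i j
    have h4 : r i * r j = - (Real.sqrt (D i i) * Real.sqrt (D j j)) := by
      have hcc := h i j hadj
      simp only [hr]
      cases hci : c i <;> cases hcj : c j
      · exact absurd (hci.trans hcj.symm) hcc
      · simp
      · simp
      · exact absurd (hci.trans hcj.symm) hcc
    simp only
    rw [h4]
    linarith [neg_abs_le (D i j)]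

theorem osc_glue (G H : SimpleGraph V) (w : V) (h : ∀ x y z, G.Adj x y → H.Adj x z → x = w)
    {D : V → V → ℝ} (hDs : ∀ i j, D i j = D j i) (hD0 : ∀ i, 0 ≤ D i i)
    (hD : ∀ i j, D i j * D i j ≤ D i i * D j j) (hG : OSC G D) (hH : OSC H D) :
    OSC (G ⊔ H) D := by
  classical
  obtain ⟨N1, p1, d1, e1⟩ := hG
  obtain ⟨N2, p2, d2, e2⟩ := hH
  set P : V → Prop := fun i => ∃ y, G.Adj i y with hP
  have hDw : D w w = 0 → ∀ j, D w j = 0 := by
    intro h0 j
    have := hD w j
    rw [h0, zero_mul] at this
    nlinarith [mul_self_nonneg (D w j)]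
  refine ⟨fun i j => if P i then (if P j then N1 i j else N1 i w * N2 w j / D w w)
    else (if P j then N2 i w * N1 w j / D w w else N2 i j), ⟨?_, ?_⟩, ?_, ?_⟩
  · intro i j
    by_cases hi : P i <;> by_cases hj : P j <;> simp only [hi, hj, if_true, if_false]
    · exact p1.1 i j
    · rw [p1.1 i w, p2.1 w j]; ring
    · rw [p2.1 i w, p1.1 w j]; ring
    · exact p2.1 i j
  · intro x
    set x1 : V → ℝ := fun i => if P i then x i else 0 with hx1
    set x2 : V → ℝ := fun i => if P i then 0 else x i with hx2
    set S1 := ∑ i, ∑ j, x1 i * N1 i j * x1 j with hS1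
    set S2 := ∑ i, ∑ j, x2 i * N2 i j * x2 j with hS2
    set α := ∑ i, x1 i * N1 i w with hα
    set β := ∑ i, x2 i * N2 i w with hβ
    have key : ∑ i, ∑ j, x i * (if P i then (if P j then N1 i j else N1 i w * N2 w j / D w w)
        else (if P j then N2 i w * N1 w j / D w w else N2 i j)) * x j =
        S1 + S2 + 2 * (α * β / D w w) := by
      have t : ∀ i j, x i * (if P i then (if P j then N1 i j else N1 i w * N2 w j / D w w)
        else (if P j then N2 i w * N1 w j / D w w else N2 i j)) * x j =
          x1 i * N1 i j * x1 j + x2 i * N2 i j * x2 j + (x1 i * N1 i w) * (x2 j * N2 j w) / D w w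
          + (x2 i * N2 i w) * (x1 j * N1 j w) / D w w := by
        intro i j
        simp only [hx1, hx2]
        by_cases hi : P i <;> by_cases hj : P j <;> simp only [hi, hj, if_true, if_false]
        · ring
        · rw [p2.1 w j]; ring
        · rw [p1.1 w j]; ring
        · ring
      have s1 : ∑ i, ∑ j, (x1 i * N1 i w) * (x2 j * N2 j w) / D w w = α * β / D w w := by
        rw [hα, hβ, sum_mul_sum, sum_div]
        apply sum_congr rfl; intro i _
        rw [sum_div]
      have s2 : ∑ i, ∑ j, (x2 i * N2 i w) * (x1 j * N1 j w) / D w w = α * β / D w w := by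
        rw [mul_comm α β, hα, hβ, sum_mul_sum, sum_div]
        apply sum_congr rfl; intro i _
        rw [sum_div]
      rw [sum_congr rfl (fun i _ => sum_congr rfl (fun j _ => t i j))]
      simp only [sum_add_distrib]
      rw [s1, s2]
      ring
    rw [key]
    have c1 := psd_cs p1 x1 w
    have c2 := psd_cs p2 x2 w
    rw [d1 w] at c1
    rw [d2 w] at c2
    have n1 := p1.2 x1
    have n2 := p2.2 x2
    rcases eq_or_lt_of_le (hD0 w) with h0 | hpos
    · rw [← h0]; simp only [div_zero, mul_zero, add_zero]
      exact add_nonneg n1 n2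
    · have k1 : α ^ 2 / D w w ≤ S1 := by rw [div_le_iff₀ hpos]; exact c1
      have k2 : β ^ 2 / D w w ≤ S2 := by rw [div_le_iff₀ hpos]; exact c2
      have k3 : 0 ≤ (α + β) ^ 2 / D w w := div_nonneg (sq_nonneg _) hpos.le
      have k4 : (α + β) ^ 2 / D w w = α ^ 2 / D w w + β ^ 2 / D w w + 2 * (α * β / D w w) := by
        ring
      linarith
  · intro i
    by_cases hi : P i
    · simp only [hi, if_true]; exact d1 i
    · simp only [hi, if_false]; exact d2 i
  · intro i j hadj
    rcases hadj with hg | hh
    · have hi : P i := ⟨j, hg⟩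
      have hj : P j := ⟨i, hg.symm⟩
      simp only [hi, hj, if_true]
      exact e1 i j hg
    · by_cases hi : P i
      · obtain ⟨y, hy⟩ := hi
        have hiw : i = w := h i y j hy hh
        by_cases hj : P j
        · obtain ⟨z, hz⟩ := hj
          have hjw : j = w := h j z i hz hh.symm
          exact absurd (hiw.trans hjw.symm) hh.ne
        · have hi : P i := ⟨y, hy⟩
          simp only [hi, hj, if_true, if_false]
          subst hiw
          rw [d1 i]
          by_cases h0 : D i i = 0
          · rw [h0, hDw h0 j]; simp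
          · have : D i i * N2 i j / D i i = N2 i j := by field_simp
            rw [this]
            exact e2 i j hh
      · by_cases hj : P j
        · obtain ⟨z, hz⟩ := hj
          have hjw : j = w := h j z i hz hh.symm
          have hj : P j := ⟨z, hz⟩
          simp only [hi, hj, if_true, if_false]
          subst hjw
          rw [d1 j]
          by_cases h0 : D j j = 0
          · rw [h0, hDs i j, hDw h0 i]; simp
          · have : N2 i j * D j j / D j j = N2 i j := by field_simp
            rw [this]
            exact e2 i j hh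
        · simp only [hi, hj, if_false]
          exact e2 i j hh

end E8h27.CB
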