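import Pool.Agent.E8helper27.CB.Stm

/-! Odd cycles (MP_773c61_co, project CB2): statements of the pieces. The cyclic order is the one
of `Fin (2 * m + 5)`, with `i + 1` the next vertex (addition is modulo `2 * m + 5`). -/

namespace E8h27.CB

/-- MONO -/
def S_MONO : Prop :=
  ∀ g d e b : ℝ, 1 ≤ g → 1 ≤ d → 1 ≤ e → 0 ≤ b → b * b ≤ d * e →
    (b ^ g - 1) ^ 2 * ((d - 1) * (e - 1)) ≤ (b - 1) ^ 2 * ((d ^ g - 1) * (e ^ g - 1))

/-- PLANE -/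
def S_PLANE : Prop :=
  ∀ (m : ℕ) (rho psi : Fin (2 * m + 5) → ℝ), (∀ i, 0 ≤ rho i) →
    (∀ i, 0 ≤ psi i ∧ psi i ≤ Real.pi) → Real.pi ≤ ∑ i, (Real.pi - psi i) →
    ∃ p q : Fin (2 * m + 5) → ℝ, (∀ i, p i * p i + q i * q i = rho i * rho i) ∧
      ∀ i, p i * p (i + 1) + q i * q (i + 1) ≤ rho i * rho (i + 1) * Real.cos (psi i)

/-- ANG: angles between unit vectors satisfy the triangle inequality, in terms of Gram matrices. -/
def S_ANG : Prop :=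
  ∀ (V : Type) [Fintype V] (R : V → V → ℝ), Psd R → (∀ i, R i i = 1) →
    ∀ i j k, Real.arccos (R i k) ≤ Real.arccos (R i j) + Real.arccos (R j k)

/-- SPH -/
def S_SPH : Prop :=
  ∀ (m : ℕ) (R : Fin (2 * m + 5) → Fin (2 * m + 5) → ℝ) (eta kap : Fin (2 * m + 5) → ℝ),
    Psd R → (∀ i, R i i = 1) →
    (∀ i j, i ≠ j → j ≠ i + 1 → i ≠ j + 1 → R i j ≤ 0) →
    (∀ i, eta i = 1 ∨ eta i = -1) →
    (∀ i, |kap i| ≤ |R i (i + 1)|) → (∀ i, 0 ≤ kap i * R i (i + 1)) →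
    Real.pi ≤ ∑ i, Real.arccos (-(eta i * eta (i + 1) * kap i))

end E8h27.CB
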