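import Pool.Agent.E8helper27.CB.Asm
import Pool.Agent.E8helper27.CB.Osc
import Pool.Agent.E8helper27.CB.Stm2

/-! Odd cycles and blocks (helper27, project CB2). -/

namespace E8h27.CB

open Finset

/-- Graphs glued at single vertices from bipartite graphs and odd cycles of length at least
five: a bipartite graph (with further isolated vertices); an odd cycle of length `2 * m + 5` (with
further isolated vertices); the union of two such graphs whose sets of non-isolated vertices have at
most one common vertex. -/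
inductive Blk {V : Type} : SimpleGraph V → Prop
  | bip (G : SimpleGraph V) (c : V → Bool) (h : ∀ u v, G.Adj u v → c u ≠ c v) : Blk G
  | cyc (G : SimpleGraph V) (m : ℕ) (f : Fin (2 * m + 5) → V) (hf : Function.Injective f)
      (h : ∀ u v, G.Adj u v ↔ ∃ i, (u = f i ∧ v = f (i + 1)) ∨ (v = f i ∧ u = f (i + 1))) : Blk G
  | glue (G H : SimpleGraph V) (w : V) (h : ∀ x y z, G.Adj x y → H.Adj x z → x = w)
      (hG : Blk G) (hH : Blk H) : Blk (G ⊔ H)

variable {V : Type} [Fintype V]

theorem sgn_mul_abs (x : ℝ) : (if x < 0 then (-1:ℝ) else 1) * |x| = x := by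
  split_ifs with h
  · rw [abs_of_neg h]; ring
  · rw [abs_of_nonneg (not_lt.mp h)]; ring

theorem osc_cyc (hMONO : S_MONO) (hPLANE : S_PLANE) (hSPH : S_SPH)
    (m : ℕ) (f : Fin (2 * m + 5) → V) (hf : Function.Injective f) (G : SimpleGraph V)
    (h : ∀ u v, G.Adj u v ↔ ∃ i, (u = f i ∧ v = f (i + 1)) ∨ (v = f i ∧ u = f (i + 1)))
    {b : V → V → ℝ} (hb : Psd (fun i j => b i j - 1)) (hb0 : ∀ i j, 0 ≤ b i j)
    (hZ : ∀ i j : Fin (2 * m + 5), i ≠ j → j ≠ i + 1 → i ≠ j + 1 → b (f i) (f j) = 0)
    {g : ℝ} (hg : 1 ≤ g) (w : V → ℝ) :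
    OSC G (fun i j => w i * w j * (b i j ^ g - 1)) := by
  classical
  have hbs : ∀ i j, b i j = b j i := by
    intro i j
    have : b i j - 1 = b j i - 1 := hb.1 i j
    linarith
  have hd1 : ∀ i, 1 ≤ b i i := by
    intro i
    have : 0 ≤ b i i - 1 := psd_diag hb i
    linarith
  have h2 : ∀ i j, (b i j - 1) * (b i j - 1) ≤ (b i i - 1) * (b j j - 1) := fun i j =>
    psd_two hb i j
  have hfin2 : ∀ i : Fin (2 * m + 5), i ≠ i + 2 ∧ i + 2 ≠ i + 1 ∧ i ≠ i + 2 + 1 := by
    intro i
    refine ⟨?_, ?_, ?_⟩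
    · intro hc
      have h0 : (2 : Fin (2 * m + 5)) = 0 := by
        have : i + 0 = i + 2 := by rw [add_zero]; exact hc
        exact (add_left_cancel this).symm
      have := congrArg Fin.val h0
      simp at this
      rw [Nat.mod_eq_of_lt (by omega)] at this
      omega
    · intro hc
      have h0 : (2 : Fin (2 * m + 5)) = 1 := add_left_cancel hc
      have := congrArg Fin.val h0
      simp at this
      rw [Nat.mod_eq_of_lt (by omega)] at this
      omega
    · intro hc
      have h0 : (2 + 1 : Fin (2 * m + 5)) = 0 := by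
        have : i + 0 = i + (2 + 1) := by rw [add_zero, ← add_assoc]; exact hc
        exact (add_left_cancel this).symm
      have := congrArg Fin.val h0
      simp [Fin.val_add] at this
      rw [Nat.mod_eq_of_lt (show 2 + 1 < 2 * m + 5 by omega)] at this
      omega
  have hdpos : ∀ i : Fin (2 * m + 5), 0 < b (f i) (f i) - 1 := by
    intro i
    obtain ⟨k1, k2, k3⟩ := hfin2 i
    have hz := hZ i (i + 2) k1 k2 k3
    have h3 := h2 (f i) (f (i + 2))
    rw [hz] at h3
    have h4 := hd1 (f i)
    have h5 := hd1 (f (i + 2))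
    by_contra hcon
    have h6 : b (f i) (f i) - 1 = 0 := le_antisymm (not_lt.mp hcon) (by linarith)
    rw [h6] at h3
    norm_num at h3
  have hgpos : ∀ i : Fin (2 * m + 5), 0 < b (f i) (f i) ^ g - 1 := by
    intro i
    have h1 : 1 < b (f i) (f i) := by linarith [hdpos i]
    have := Real.one_lt_rpow h1 (show 0 < g by linarith)
    linarith
  set sd : Fin (2 * m + 5) → ℝ := fun i => Real.sqrt (b (f i) (f i) - 1) with hsd
  set sg : Fin (2 * m + 5) → ℝ := fun i => Real.sqrt (b (f i) (f i) ^ g - 1) with hsg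
  have hsdp : ∀ i, 0 < sd i := fun i => Real.sqrt_pos.mpr (hdpos i)
  have hsgp : ∀ i, 0 < sg i := fun i => Real.sqrt_pos.mpr (hgpos i)
  have hsd2 : ∀ i, sd i * sd i = b (f i) (f i) - 1 := fun i => Real.mul_self_sqrt (hdpos i).le
  have hsg2 : ∀ i, sg i * sg i = b (f i) (f i) ^ g - 1 := fun i => Real.mul_self_sqrt (hgpos i).le
  set R : Fin (2 * m + 5) → Fin (2 * m + 5) → ℝ :=
    fun i j => (b (f i) (f j) - 1) / (sd i * sd j) with hR
  have hRpsd : Psd R := by
    constructor
    · intro i j
      simp only [hR]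
      rw [hbs (f i) (f j), mul_comm (sd i)]
    · intro x
      have h3 := hb.2 (fun v => ∑ i, if f i = v then x i / sd i else 0)
      have e : ∑ u, ∑ v, (∑ i, if f i = u then x i / sd i else 0) * (b u v - 1) *
          (∑ i, if f i = v then x i / sd i else 0) = ∑ i, ∑ j, x i * R i j * x j := by
        have e1 : ∀ (F : V → ℝ), ∑ u, (∑ i, if f i = u then x i / sd i else 0) * F u =
            ∑ i, x i / sd i * F (f i) := by
          intro F
          simp only [sum_mul]
          rw [sum_comm]
          apply sum_congr rfl; intro i _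
          simp [ite_mul]
        have e2 : ∀ u, ∑ v, (∑ i, if f i = u then x i / sd i else 0) * (b u v - 1) *
          (∑ i, if f i = v then x i / sd i else 0) =
            (∑ i, if f i = u then x i / sd i else 0) * ∑ j, x j / sd j * (b u (f j) - 1) := by
          intro u
          rw [← e1 (fun v => b u v - 1), mul_sum]
          apply sum_congr rfl; intro v _
          ring
        rw [sum_congr rfl (fun u _ => e2 u), e1]
        apply sum_congr rfl; intro i _
        rw [mul_sum]
        apply sum_congr rfl; intro j _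
        simp only [hR]
        have n1 := (hsdp i).ne'
        have n2 := (hsdp j).ne'
        field_simp
      rw [e] at h3
      exact h3
  have hR1 : ∀ i, R i i = 1 := by
    intro i
    simp only [hR]
    rw [hsd2 i]
    exact div_self (hdpos i).ne'
  have hRn : ∀ i j, i ≠ j → j ≠ i + 1 → i ≠ j + 1 → R i j ≤ 0 := by
    intro i j k1 k2 k3
    simp only [hR]
    rw [hZ i j k1 k2 k3]
    apply div_nonpos_of_nonpos_of_nonneg (by norm_num)
    exact (mul_pos (hsdp i) (hsdp j)).le
  set eta : Fin (2 * m + 5) → ℝ := fun i => if w (f i) < 0 then -1 else 1 with heta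
  have heta1 : ∀ i, eta i = 1 ∨ eta i = -1 := by
    intro i
    simp only [heta]
    split_ifs
    · right; rfl
    · left; rfl
  set kap : Fin (2 * m + 5) → ℝ :=
    fun i => (b (f i) (f (i + 1)) ^ g - 1) / (sg i * sg (i + 1)) with hkap
  have hkR : ∀ i, |kap i| ≤ |R i (i + 1)| := by
    intro i
    apply sq_le_sq.mp
    simp only [hkap, hR]
    rw [div_pow, div_pow, mul_pow, mul_pow]
    have q1 : sg i ^ 2 = b (f i) (f i) ^ g - 1 := by rw [sq]; exact hsg2 i
    have q2 : sg (i + 1) ^ 2 = b (f (i + 1)) (f (i + 1)) ^ g - 1 := by rw [sq]; exact hsg2 (i + 1)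
    have q3 : sd i ^ 2 = b (f i) (f i) - 1 := by rw [sq]; exact hsd2 i
    have q4 : sd (i + 1) ^ 2 = b (f (i + 1)) (f (i + 1)) - 1 := by rw [sq]; exact hsd2 (i + 1)
    rw [q1, q2, q3, q4, div_le_div_iff₀ (mul_pos (hgpos i) (hgpos _))
      (mul_pos (hdpos i) (hdpos _))]
    apply hMONO g _ _ _ hg (hd1 _) (hd1 _) (hb0 _ _)
    have h3 := h2 (f i) (f (i + 1))
    have h4 := hd1 (f i)
    have h5 := hd1 (f (i + 1))
    have h6 := hb0 (f i) (f (i + 1))
    have h7 : b (f i) (f (i + 1)) ≤ 1 + ((b (f i) (f i) - 1) + (b (f (i+1)) (f (i+1)) - 1)) / 2 := by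
      by_contra hcon
      push Not at hcon
      nlinarith [sq_nonneg ((b (f i) (f i) - 1) - (b (f (i+1)) (f (i+1)) - 1))]
    nlinarith
  have hsign : ∀ i, 0 ≤ kap i * R i (i + 1) := by
    intro i
    simp only [hkap, hR]
    rw [div_mul_div_comm]
    apply div_nonneg
    · rcases le_total 1 (b (f i) (f (i + 1))) with h1 | h1
      · have := Real.one_le_rpow h1 (show 0 ≤ g by linarith)
        exact mul_nonneg (by linarith) (by linarith)
      · have := Real.rpow_le_one (hb0 (f i) (f (i + 1))) h1 (show 0 ≤ g by linarith)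
        exact mul_nonneg_of_nonpos_of_nonpos (by linarith) (by linarith)
    · exact (mul_pos (mul_pos (hsgp _) (hsgp _)) (mul_pos (hsdp _) (hsdp _))).le
  have hS := hSPH m R eta kap hRpsd hR1 hRn heta1 hkR hsign
  set rho : Fin (2 * m + 5) → ℝ := fun i => |w (f i)| * sg i with hrho
  obtain ⟨p, q, hpq, hpq2⟩ := hPLANE m rho (fun i => Real.arccos (eta i * eta (i + 1) * kap i))
    (fun i => mul_nonneg (abs_nonneg _) (hsgp i).le)
    (fun i => ⟨Real.arccos_nonneg _, Real.arccos_le_pi _⟩)
    (by
      refine le_of_le_of_eq hS ?_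
      apply sum_congr rfl; intro i _
      rw [Real.arccos_neg])
  have hk1 : ∀ i, |kap i| ≤ 1 := by
    intro i
    refine le_trans (hkR i) ?_
    have h3 := psd_two hRpsd i (i + 1)
    rw [hR1, hR1, one_mul] at h3
    rw [← Real.sqrt_one, ← Real.sqrt_mul_self (abs_nonneg (R i (i + 1)))]
    apply Real.sqrt_le_sqrt
    rw [abs_mul_abs_self]
    exact h3
  have hpq3 : ∀ i, p i * p (i + 1) + q i * q (i + 1) ≤
      w (f i) * w (f (i + 1)) * (b (f i) (f (i + 1)) ^ g - 1) := by
    intro i
    refine le_of_le_of_eq (hpq2 i) ?_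
    have hab : |eta i * eta (i + 1) * kap i| ≤ 1 := by
      rw [abs_mul, abs_mul]
      have t1 : |eta i| = 1 := by rcases heta1 i with h | h <;> rw [h] <;> simp
      have t2 : |eta (i + 1)| = 1 := by rcases heta1 (i + 1) with h | h <;> rw [h] <;> simp
      rw [t1, t2, one_mul, one_mul]
      exact hk1 i
    rw [Real.cos_arccos (by linarith [neg_abs_le (eta i * eta (i + 1) * kap i)])
      (by linarith [le_abs_self (eta i * eta (i + 1) * kap i)])]
    simp only [hrho, hkap]
    have t1 : eta i * |w (f i)| = w (f i) := sgn_mul_abs _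
    have t2 : eta (i + 1) * |w (f (i + 1))| = w (f (i + 1)) := sgn_mul_abs _
    have n1 := (hsgp i).ne'
    have n2 := (hsgp (i + 1)).ne'
    calc |w (f i)| * sg i * (|w (f (i + 1))| * sg (i + 1)) * (eta i * eta (i + 1) *
          ((b (f i) (f (i + 1)) ^ g - 1) / (sg i * sg (i + 1))))
        = (eta i * |w (f i)|) * (eta (i + 1) * |w (f (i + 1))|) *
          (b (f i) (f (i + 1)) ^ g - 1) := by field_simp
      _ = _ := by rw [t1, t2]
  -- extend to V
  set P : V → ℝ := fun v => ∑ i, if f i = v then p i else 0 with hP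
  set Q : V → ℝ := fun v => ∑ i, if f i = v then q i else 0 with hQ
  have hPf : ∀ i, P (f i) = p i := by
    intro i
    simp only [hP]
    rw [sum_eq_single i]
    · simp
    · intro j _ hj
      rw [if_neg (fun h => hj (hf h))]
    · simp
  have hQf : ∀ i, Q (f i) = q i := by
    intro i
    simp only [hQ]
    rw [sum_eq_single i]
    · simp
    · intro j _ hj
      rw [if_neg (fun h => hj (hf h))]
    · simp
  have hPo : ∀ v, (∀ i, f i ≠ v) → P v = 0 := by
    intro v hv
    simp only [hP]
    apply sum_eq_zero; intro i _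
    rw [if_neg (hv i)]
  have hQo : ∀ v, (∀ i, f i ≠ v) → Q v = 0 := by
    intro v hv
    simp only [hQ]
    apply sum_eq_zero; intro i _
    rw [if_neg (hv i)]
  have hDg : ∀ v, 0 ≤ w v * w v * (b v v ^ g - 1) := by
    intro v
    have := Real.one_le_rpow (hd1 v) (show 0 ≤ g by linarith)
    exact mul_nonneg (mul_self_nonneg _) (by linarith)
  set E : V → ℝ := fun v => if (∃ i, f i = v) then 0 else w v * w v * (b v v ^ g - 1) with hE
  have hE0 : ∀ v, 0 ≤ E v := by
    intro v
    simp only [hE]
    split_ifs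
    · exact le_refl _
    · exact hDg v
  refine ⟨fun u v => P u * P v + Q u * Q v + (if u = v then E u else 0), ⟨?_, ?_⟩, ?_, ?_⟩
  · intro u v
    by_cases huv : u = v
    · rw [huv]
    · simp only [if_neg huv, if_neg (Ne.symm huv)]; ring
  · intro x
    have e : ∑ u, ∑ v, x u * (P u * P v + Q u * Q v + (if u = v then E u else 0)) * x v =
        (∑ u, x u * P u) * (∑ u, x u * P u) + (∑ u, x u * Q u) * (∑ u, x u * Q u) +
        ∑ u, x u * E u * x u := by
      rw [sum_mul_sum, sum_mul_sum, ← sum_add_distrib, ← sum_add_distrib]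
      apply sum_congr rfl; intro u _
      have t : ∀ v, x u * (P u * P v + Q u * Q v + (if u = v then E u else 0)) * x v =
          x u * P u * (x v * P v) + x u * Q u * (x v * Q v) +
          (if u = v then x u * E u * x v else 0) := by
        intro v
        split_ifs <;> ring
      rw [sum_congr rfl (fun v _ => t v), sum_add_distrib, sum_add_distrib]
      simp
    rw [e]
    have e3 : 0 ≤ ∑ u, x u * E u * x u := by
      apply sum_nonneg; intro u _
      nlinarith [mul_nonneg (hE0 u) (mul_self_nonneg (x u))]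
    have e1 := mul_self_nonneg (∑ u, x u * P u)
    have e2 := mul_self_nonneg (∑ u, x u * Q u)
    linarith
  · intro v
    simp only [if_true]
    by_cases hv : ∃ i, f i = v
    · obtain ⟨i, rfl⟩ := hv
      have hEi : E (f i) = 0 := by
        simp only [hE]
        rw [if_pos ⟨i, rfl⟩]
      rw [hPf, hQf, hEi, add_zero, hpq i]
      simp only [hrho]
      have := hsg2 i
      calc |w (f i)| * sg i * (|w (f i)| * sg i) = (|w (f i)| * |w (f i)|) * (sg i * sg i) := by ring
        _ = _ := by rw [abs_mul_abs_self, this]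
    · have hv' : ∀ i, f i ≠ v := fun i hi => hv ⟨i, hi⟩
      rw [hPo v hv', hQo v hv']
      simp only [hE, if_neg hv]
      ring
  · intro u v huv
    have hne : u ≠ v := huv.ne
    simp only [if_neg hne, add_zero]
    obtain ⟨i, ⟨hu, hv⟩ | ⟨hv, hu⟩⟩ := (h u v).mp huv
    · rw [hu, hv, hPf, hPf, hQf, hQf]
      exact hpq3 i
    · rw [hu, hv, hPf, hPf, hQf, hQf]
      have h3 := hpq3 i
      rw [hbs (f (i + 1)) (f i)]
      nlinarith [h3]

end E8h27.CB
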