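import Pool.Agent.E8helper27.CB.Stm

/-! Duality for cones over bipartite graphs (helper27, project CB). -/

namespace E8h27.CB

open Finset

variable {V : Type} [Fintype V]

/-- `x` is supported on a clique. -/
def CSup (G : SimpleGraph V) (x : V → ℝ) : Prop :=
  ∀ i j, x i ≠ 0 → x j ≠ 0 → i ≠ j → G.Adj i j

/-- `C` is positive semidefinite on every clique. -/
def CPsd (G : SimpleGraph V) (C : V → V → ℝ) : Prop :=
  (∀ i j, C i j = C j i) ∧ ∀ x : V → ℝ, CSup G x → 0 ≤ ∑ i, ∑ j, x i * C i j * x j

theorem form_two [DecidableEq V] (C : V → V → ℝ) (i j : V) (s t : ℝ) :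
    ∑ a, ∑ b, ((if a = i then s else 0) + (if a = j then t else 0)) * C a b *
      ((if b = i then s else 0) + (if b = j then t else 0)) =
      s * C i i * s + s * C i j * t + t * C j i * s + t * C j j * t := by
  simp [add_mul, mul_add, sum_add_distrib, ite_mul, mul_ite]
  ring

theorem CPsd.two {G : SimpleGraph V} {C : V → V → ℝ} (hC : CPsd G C) {i j : V}
    (hij : G.Adj i j) (s t : ℝ) :
    0 ≤ s * C i i * s + s * C i j * t + t * C j i * s + t * C j j * t := by
  classical
  rw [← form_two C i j s t]
  apply hC.2
  intro a b ha hb hab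
  have h1 : a = i ∨ a = j := by
    by_contra hcon
    push Not at hcon
    apply ha
    simp [hcon.1, hcon.2]
  have h2 : b = i ∨ b = j := by
    by_contra hcon
    push Not at hcon
    apply hb
    simp [hcon.1, hcon.2]
  rcases h1 with rfl | rfl <;> rcases h2 with rfl | rfl
  · exact absurd rfl hab
  · exact hij
  · exact hij.symm
  · exact absurd rfl hab

theorem CPsd.diag {G : SimpleGraph V} {C : V → V → ℝ} (hC : CPsd G C) (i : V) :
    0 ≤ C i i := by
  classical
  have h := hC.2 (fun a => (if a = i then 1 else 0) + (if a = i then (0:ℝ) else 0)) (by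
    intro a b ha hb hab
    have h1 : a = i := by
      by_contra hcon; apply ha; simp [hcon]
    have h2 : b = i := by
      by_contra hcon; apply hb; simp [hcon]
    exact absurd (h1.trans h2.symm) hab)
  rw [form_two C i i 1 0] at h
  linarith

/-- eliminating one dominating vertex -/
theorem elim_one {G : SimpleGraph V} {A C : V → V → ℝ} (hA : Psd A) (hC : CPsd G C) {v0 : V}
    (hv : ∀ v, v ≠ v0 → G.Adj v0 v) :
    ∃ C' : V → V → ℝ, CPsd G C' ∧ (∀ j, C' v0 j = 0) ∧
      (∀ u, (∀ j, C u j = 0) → ∀ j, C' u j = 0) ∧
      ∑ i, ∑ j, A i j * C' i j ≤ ∑ i, ∑ j, A i j * C i j := by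
  classical
  by_cases h0 : C v0 v0 = 0
  · refine ⟨C, hC, ?_, fun u hu => hu, le_refl _⟩
    intro j
    by_cases hj : j = v0
    · rw [hj]; exact h0
    · have hadj := hv j hj
      have hs := hC.1 v0 j
      by_contra hne
      have h := hC.two hadj (-(C j j + 1) / (2 * C v0 j)) 1
      rw [h0, ← hs] at h
      have h2 : (-(C j j + 1) / (2 * C v0 j)) * C v0 j = -(C j j + 1) / 2 := by
        field_simp
      nlinarith [h, h2]
  · have hpos : 0 < C v0 v0 := lt_of_le_of_ne (hC.diag v0) (Ne.symm h0)
    refine ⟨fun i j => C i j - C i v0 * C v0 j / C v0 v0, ⟨?_, ?_⟩, ?_, ?_, ?_⟩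
    · intro i j
      have h1 := hC.1 i j
      have h2 := hC.1 i v0
      have h3 := hC.1 v0 j
      simp only
      rw [h1, h2, h3]
      ring
    · intro x hx
      set w : ℝ := ∑ j, C v0 j * x j with hw
      have key : ∑ i, ∑ j, x i * (C i j - C i v0 * C v0 j / C v0 v0) * x j =
          ∑ i, ∑ j, x i * C i j * x j - w * w / C v0 v0 := by
        have e1 : ∑ i, ∑ j, x i * (C i j - C i v0 * C v0 j / C v0 v0) * x j =
            ∑ i, ∑ j, (x i * C i j * x j - (C v0 i * x i) * (C v0 j * x j) / C v0 v0) := by
          apply sum_congr rfl; intro i _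
          apply sum_congr rfl; intro j _
          rw [hC.1 i v0]
          ring
        rw [e1]
        simp only [sum_sub_distrib]
        congr 1
        rw [hw, sum_mul_sum, sum_div]
        apply sum_congr rfl; intro i _
        rw [sum_div]
      rw [key]
      have h := hC.2 (fun a => x a + (if a = v0 then -w / C v0 v0 else 0)) (by
        intro a b ha hb hab
        by_cases ha0 : a = v0
        · rw [ha0]; exact hv b (fun h => hab (by rw [ha0, h]))
        · by_cases hb0 : b = v0
          · rw [hb0]; exact (hv a ha0).symm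
          · apply hx a b _ _ hab
            · simpa [ha0] using ha
            · simpa [hb0] using hb)
      have e2 : ∑ a, ∑ b, (x a + (if a = v0 then -w / C v0 v0 else 0)) * C a b *
          (x b + (if b = v0 then -w / C v0 v0 else 0)) =
          ∑ i, ∑ j, x i * C i j * x j - w * w / C v0 v0 := by
        have e3 : ∀ a, ∑ b, (x a + (if a = v0 then -w / C v0 v0 else 0)) * C a b *
          (x b + (if b = v0 then -w / C v0 v0 else 0)) =
            (∑ b, x a * C a b * x b) + (x a * C a v0 * (-w / C v0 v0)) +
            (if a = v0 then (-w / C v0 v0) * w + (-w / C v0 v0) * C v0 v0 * (-w / C v0 v0)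
              else 0) := by
          intro a
          by_cases ha : a = v0
          · subst ha
            simp only [if_true, add_mul, mul_add, sum_add_distrib, mul_ite, mul_zero,
              sum_ite_eq', mem_univ]
            have e4 : ∑ b, -w / C a a * C a b * x b = -w / C a a * w := by
              rw [hw, mul_sum]
              apply sum_congr rfl; intro b _; ring
            rw [e4]
            ring
          · simp only [ha, if_false, add_zero, mul_add, sum_add_distrib, mul_ite, mul_zero,
              sum_ite_eq', mem_univ, if_true]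
        rw [sum_congr rfl (fun a _ => e3 a)]
        rw [sum_add_distrib, sum_add_distrib]
        simp only [sum_ite_eq', mem_univ, if_true]
        have e5 : ∑ a, x a * C a v0 * (-w / C v0 v0) = (-w / C v0 v0) * w := by
          rw [hw, mul_sum]
          apply sum_congr rfl; intro b _
          rw [hC.1 b v0]; ring
        rw [e5]
        field_simp
        ring
      rw [e2] at h
      exact h
    · intro j
      field_simp
      ring
    · intro u hu j
      simp [hu]
    · have hq := hA.2 (fun i => C v0 i)
      have e : ∑ i, ∑ j, A i j * (C i j - C i v0 * C v0 j / C v0 v0) =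
          ∑ i, ∑ j, A i j * C i j - (∑ i, ∑ j, C v0 i * A i j * C v0 j) / C v0 v0 := by
        rw [sum_div, ← sum_sub_distrib]
        apply sum_congr rfl; intro i _
        rw [sum_div, ← sum_sub_distrib]
        apply sum_congr rfl; intro j _
        rw [hC.1 i v0]
        ring
      rw [e]
      have : 0 ≤ (∑ i, ∑ j, C v0 i * A i j * C v0 j) / C v0 v0 := div_nonneg hq hpos.le
      linarith

/-- eliminating a set of dominating vertices -/
theorem elim_all [DecidableEq V] {G : SimpleGraph V} {A C : V → V → ℝ} (hA : Psd A)
    (hC : CPsd G C) (S : Finset V) (hS : ∀ s ∈ S, ∀ v, v ≠ s → G.Adj s v) :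
    ∃ C' : V → V → ℝ, CPsd G C' ∧ (∀ s ∈ S, ∀ j, C' s j = 0) ∧
      ∑ i, ∑ j, A i j * C' i j ≤ ∑ i, ∑ j, A i j * C i j := by
  induction S using Finset.induction_on with
  | empty => exact ⟨C, hC, by simp, le_refl _⟩
  | insert v0 T hv0 ih =>
    obtain ⟨C1, h1, h2, h3⟩ := ih (fun s hs => hS s (mem_insert_of_mem hs))
    obtain ⟨C2, k1, k2, k3, k4⟩ := elim_one hA h1 (hS v0 (mem_insert_self _ _))
    refine ⟨C2, k1, ?_, k4.trans h3⟩
    intro s hs j
    rcases mem_insert.mp hs with rfl | hs
    · exact k2 j
    · exact k3 s (h2 s hs) j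

/-- The duality: nonnegative sparse positive semidefinite matrices pair nonnegatively with
symmetric matrices positive semidefinite on cliques. -/
theorem dual {G : SimpleGraph V} {A C : V → V → ℝ} (hA : Psd A)
    (hA0 : ∀ i j, 0 ≤ A i j) (hAG : ∀ i j, i ≠ j → ¬ G.Adj i j → A i j = 0)
    (hC : CPsd G C) (S : Finset V) (hS : ∀ s ∈ S, ∀ v, v ≠ s → G.Adj s v)
    (c : V → Bool) (hc : ∀ u v, u ∉ S → v ∉ S → G.Adj u v → c u ≠ c v) :
    0 ≤ ∑ i, ∑ j, A i j * C i j := by
  classical
  obtain ⟨D, hD, hD0, hle⟩ := elim_all hA hC S hS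
  refine le_trans ?_ hle
  set r : V → ℝ := fun i => (if c i then 1 else -1) * Real.sqrt (D i i) with hr
  refine le_trans (hA.2 r) ?_
  apply sum_le_sum; intro i _
  apply sum_le_sum; intro j _
  have hreorg : r i * A i j * r j = A i j * (r i * r j) := by ring
  rw [hreorg]
  by_cases hij : i = j
  · subst hij
    apply mul_le_mul_of_nonneg_left _ (hA0 i i)
    have h1 : r i * r i = D i i := by
      simp only [hr]
      have := Real.mul_self_sqrt (hD.diag i)
      by_cases hci : c i
      · simp only [hci, if_true, one_mul]; exact this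
      · simp only [hci]
        simpa using this
    rw [h1]
  · by_cases hadj : G.Adj i j
    · apply mul_le_mul_of_nonneg_left _ (hA0 i j)
      by_cases hi : i ∈ S
      · have h1 : r i = 0 := by simp [hr, hD0 i hi]
        rw [h1, hD0 i hi]; simp
      · by_cases hj : j ∈ S
        · have h1 : r j = 0 := by simp [hr, hD0 j hj]
          rw [h1, hD.1 i j, hD0 j hj]; simp
        · have hcc := hc i j hi hj hadj
          have h2 : D i j * D i j ≤ D i i * D j j := by
            have hdi := hD.diag i
            have hdj := hD.diag j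
            have hsym := hD.1 i j
            by_cases hz : D i i = 0
            · have hz2 : D i j = 0 := by
                by_contra hne
                have h := hD.two hadj (-(D j j + 1) / (2 * D i j)) 1
                rw [hz, ← hsym] at h
                have h2 : (-(D j j + 1) / (2 * D i j)) * D i j = -(D j j + 1) / 2 := by
                  field_simp
                nlinarith [h, h2]
              rw [hz, hz2]; simp
            · have hp : 0 < D i i := lt_of_le_of_ne hdi (Ne.symm hz)
              have h := hD.two hadj (- D i j) (D i i)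
              rw [← hsym] at h
              have h3 : 0 ≤ D i i * (D i i * D j j - D i j * D i j) := by nlinarith [h]
              have h4 := nonneg_of_mul_nonneg_right h3 hp
              linarith
          have h3 : |D i j| ≤ Real.sqrt (D i i) * Real.sqrt (D j j) := by
            rw [← Real.sqrt_mul (hD.diag i)]
            apply Real.abs_le_sqrt
            rw [sq]; exact h2
          have h4 : r i * r j = - (Real.sqrt (D i i) * Real.sqrt (D j j)) := by
            simp only [hr]
            cases hci : c i <;> cases hcj : c j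
            · exact absurd (hci.trans hcj.symm) hcc
            · simp
            · simp
            · exact absurd (hci.trans hcj.symm) hcc
          rw [h4]
          linarith [neg_abs_le (D i j)]
    · rw [hAG i j hij hadj]; simp

theorem sum_sub (z f : V → ℝ) (hf : ∀ i, z i = 0 → f i = 0) :
    ∑ i, f i = ∑ i : {i : V // z i ≠ 0}, f i := by
  classical
  rw [← Finset.sum_subtype (univ.filter (fun i => z i ≠ 0)) (by simp) f]
  symm
  apply sum_subset (subset_univ _)
  intro i _ hi
  apply hf
  by_contra hne
  exact hi (mem_filter.mpr ⟨mem_univ _, hne⟩)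

theorem sum_sub2 (z : V → ℝ) (g : V → V → ℝ) (hf : ∀ i j, z i = 0 → g i j = 0)
    (hf' : ∀ i j, z j = 0 → g i j = 0) :
    ∑ i, ∑ j, g i j = ∑ i : {i : V // z i ≠ 0}, ∑ j : {i : V // z i ≠ 0}, g i j := by
  classical
  rw [sum_sub z (fun i => ∑ j, g i j) (by
    intro i hi
    exact sum_eq_zero (fun j _ => hf i j hi))]
  apply sum_congr rfl; intro i _
  exact sum_sub z (fun j => g i j) (fun j hj => hf' i j hj)

omit [Fintype V] in
/-- size of cliques -/
theorem clique_card {G : SimpleGraph V} (S : Finset V)
    (c : V → Bool) (hc : ∀ u v, u ∉ S → v ∉ S → G.Adj u v → c u ≠ c v)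
    (T : Finset V) (hT : ∀ i ∈ T, ∀ j ∈ T, i ≠ j → G.Adj i j) : T.card ≤ S.card + 2 := by
  classical
  have h1 : (T ∩ S).card ≤ S.card := card_le_card inter_subset_right
  have h2 : (T \ S).card ≤ 2 := by
    have : (T \ S).card ≤ (univ : Finset Bool).card := by
      apply card_le_card_of_injOn c (fun _ _ => mem_univ _)
      intro a ha b hb hab
      by_contra hne
      have ha' := mem_sdiff.mp (mem_coe.mp ha)
      have hb' := mem_sdiff.mp (mem_coe.mp hb)
      exact hc a b ha'.2 hb'.2 (hT a ha'.1 b hb'.1 hne) hab
    simpa using this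
  have h3 := card_inter_add_card_sdiff T S
  omega

theorem rpow_split {a b : ℝ} (ha : 0 ≤ a) (hb : 1 ≤ b) : a * a ^ (b - 1) = a ^ b := by
  rcases eq_or_lt_of_le ha with h | h
  · rw [← h, zero_mul, Real.zero_rpow (by linarith)]
  · have := Real.rpow_add h 1 (b - 1)
    rw [Real.rpow_one] at this
    rw [← this]
    congr 1; ring

/-- Main positivity: powers `b ≥ |S| + 1`. -/
theorem main_pos (hFH : S_FH) {G : SimpleGraph V} {A : V → V → ℝ} (hA : Psd A)
    (hA0 : ∀ i j, 0 ≤ A i j) (hAG : ∀ i j, i ≠ j → ¬ G.Adj i j → A i j = 0)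
    (S : Finset V) (hS : ∀ s ∈ S, ∀ v, v ≠ s → G.Adj s v)
    (c : V → Bool) (hc : ∀ u v, u ∉ S → v ∉ S → G.Adj u v → c u ≠ c v)
    (b : ℝ) (hb : (S.card : ℝ) + 1 ≤ b) (x : V → ℝ) :
    0 ≤ ∑ i, ∑ j, x i * A i j ^ b * x j := by
  classical
  have hS0 : (0 : ℝ) ≤ S.card := Nat.cast_nonneg _
  have hb1 : 1 ≤ b := by linarith
  have hC : CPsd G (fun i j => x i * x j * A i j ^ (b - 1)) := by
    constructor
    · intro i j
      simp only
      rw [hA.1 i j]; ring
    · intro z hz
      let K := {i : V // z i ≠ 0}
      have hcard : Fintype.card K ≤ S.card + 2 := by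
        have h1 := clique_card S c hc (univ.filter (fun i => z i ≠ 0)) (by
          intro i hi j hj hij
          exact hz i j (mem_filter.mp hi).2 (mem_filter.mp hj).2 hij)
        rw [Fintype.card_subtype]
        exact h1
      have hK : Psd (fun i j : K => A i j) := by
        constructor
        · intro i j; exact hA.1 i j
        · intro y
          have h := hA.2 (fun i => if h : z i ≠ 0 then y ⟨i, h⟩ else 0)
          have e : ∑ i, ∑ j, (if h : z i ≠ 0 then y ⟨i, h⟩ else 0) * A i j *
              (if h : z j ≠ 0 then y ⟨j, h⟩ else 0) = ∑ i : K, ∑ j : K, y i * A i j * y j := by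
            rw [sum_sub2 z _ (by intro i j hi; simp [hi]) (by intro i j hj; simp [hj])]
            apply sum_congr rfl; intro i _
            apply sum_congr rfl; intro j _
            rw [dif_pos i.2, dif_pos j.2]
          rw [e] at h
          exact h
      have hP := hFH S.card K (fun i j => A i j) (b - 1) hcard (by linarith)
        (fun i j => hA0 i j) hK
      have h := hP.2 (fun i => z i * x i)
      rw [sum_sub2 z _ (by intro i j hi; simp [hi]) (by intro i j hj; simp [hj])]
      refine le_of_le_of_eq h ?_
      apply sum_congr rfl; intro i _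
      apply sum_congr rfl; intro j _
      ring
  have h := dual hA hA0 hAG hC S hS c hc
  have e : ∑ i, ∑ j, A i j * (x i * x j * A i j ^ (b - 1)) =
      ∑ i, ∑ j, x i * A i j ^ b * x j := by
    apply sum_congr rfl; intro i _
    apply sum_congr rfl; intro j _
    rw [← rpow_split (hA0 i j) hb1]
    ring
  rw [e] at h
  exact h

end E8h27.CB
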