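import Pool.Agent.E8helper27.CB.Cyc

/-! Cones over block graphs (helper27, project CB2): positivity of the powers `B ≥ 2`. -/

namespace E8h27.CB

open Finset

variable {V : Type} [Fintype V]

theorem psd_pair {A C : V → V → ℝ} (hA : Psd A) (hC : Psd C) :
    0 ≤ ∑ i, ∑ j, A i j * C i j := by
  classical
  have h1 : (Matrix.of A).PosSemidef := (psd_iff _).mpr hA
  have h2 : (Matrix.of C).PosSemidef := (psd_iff _).mpr hC
  have h3 := (psd_iff _).mp (h1.hadamard h2)
  have h4 := h3.2 (fun _ => 1)
  simp only [Matrix.hadamard_apply, Matrix.of_apply, one_mul, mul_one] at h4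
  exact h4

theorem two_pow (hMONO : S_MONO) {b : V → V → ℝ} (hb : Psd (fun i j => b i j - 1))
    (hb0 : ∀ i j, 0 ≤ b i j) {g : ℝ} (hg : 1 ≤ g) (i j : V) :
    (b i j ^ g - 1) * (b i j ^ g - 1) ≤ (b i i ^ g - 1) * (b j j ^ g - 1) := by
  have hdi : 0 ≤ b i i - 1 := psd_diag hb i
  have hdj : 0 ≤ b j j - 1 := psd_diag hb j
  have h2 : (b i j - 1) * (b i j - 1) ≤ (b i i - 1) * (b j j - 1) := psd_two hb i j
  have hgi : 1 ≤ b i i ^ g := Real.one_le_rpow (by linarith) (by linarith)
  have hgj : 1 ≤ b j j ^ g := Real.one_le_rpow (by linarith) (by linarith)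
  have hX : 0 ≤ (b i i ^ g - 1) * (b j j ^ g - 1) := mul_nonneg (by linarith) (by linarith)
  by_cases hz : (b i i - 1) * (b j j - 1) = 0
  · rw [hz] at h2
    have h3 : b i j = 1 := by nlinarith [mul_self_nonneg (b i j - 1)]
    rw [h3, Real.one_rpow]
    simpa using hX
  · have hpos : 0 < (b i i - 1) * (b j j - 1) :=
      lt_of_le_of_ne (mul_nonneg hdi hdj) (Ne.symm hz)
    have h6 := hb0 i j
    have h7 : b i j ≤ 1 + ((b i i - 1) + (b j j - 1)) / 2 := by
      by_contra hcon
      push Not at hcon
      nlinarith [sq_nonneg ((b i i - 1) - (b j j - 1))]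
    have h8 : b i j * b i j ≤ b i i * b j j := by nlinarith
    have hM := hMONO g _ _ _ hg (by linarith) (by linarith) h6 h8
    have h9 : (b i j - 1) ^ 2 * ((b i i ^ g - 1) * (b j j ^ g - 1)) ≤
        ((b i i - 1) * (b j j - 1)) * ((b i i ^ g - 1) * (b j j ^ g - 1)) := by
      apply mul_le_mul_of_nonneg_right _ hX
      rw [sq]; exact h2
    have h10 : (b i j ^ g - 1) ^ 2 * ((b i i - 1) * (b j j - 1)) ≤
        ((b i i ^ g - 1) * (b j j ^ g - 1)) * ((b i i - 1) * (b j j - 1)) := by linarith
    have h11 := le_of_mul_le_mul_right h10 hpos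
    rw [sq] at h11
    exact h11

theorem osc_all (hMONO : S_MONO) (hPLANE : S_PLANE) (hSPH : S_SPH)
    {b : V → V → ℝ} (hb : Psd (fun i j => b i j - 1)) (hb0 : ∀ i j, 0 ≤ b i j)
    {g : ℝ} (hg : 1 ≤ g) (w : V → ℝ) :
    ∀ G : SimpleGraph V, Blk G →
      (∀ i j, i ≠ j → (∃ y, G.Adj i y) → (∃ y, G.Adj j y) → ¬ G.Adj i j → b i j = 0) →
      OSC G (fun i j => w i * w j * (b i j ^ g - 1)) := by
  have hbs : ∀ i j, b i j = b j i := by
    intro i j
    have : b i j - 1 = b j i - 1 := hb.1 i j
    linarith
  have hD0 : ∀ i, 0 ≤ w i * w i * (b i i ^ g - 1) := by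
    intro i
    have hdi : 0 ≤ b i i - 1 := psd_diag hb i
    have hgi : 1 ≤ b i i ^ g := Real.one_le_rpow (by linarith) (by linarith)
    exact mul_nonneg (mul_self_nonneg _) (by linarith)
  have hD : ∀ i j, (w i * w j * (b i j ^ g - 1)) * (w i * w j * (b i j ^ g - 1)) ≤
      (w i * w i * (b i i ^ g - 1)) * (w j * w j * (b j j ^ g - 1)) := by
    intro i j
    have h1 := two_pow hMONO hb hb0 hg i j
    have h2 : 0 ≤ (w i * w j) * (w i * w j) := mul_self_nonneg _
    calc (w i * w j * (b i j ^ g - 1)) * (w i * w j * (b i j ^ g - 1))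
        = ((w i * w j) * (w i * w j)) * ((b i j ^ g - 1) * (b i j ^ g - 1)) := by ring
      _ ≤ ((w i * w j) * (w i * w j)) * ((b i i ^ g - 1) * (b j j ^ g - 1)) :=
          mul_le_mul_of_nonneg_left h1 h2
      _ = _ := by ring
  have hDs : ∀ i j, w i * w j * (b i j ^ g - 1) = w j * w i * (b j i ^ g - 1) := by
    intro i j
    rw [hbs i j]; ring
  intro G hG
  induction hG with
  | bip G c h =>
    intro _
    exact osc_bip G c h hD0 hD
  | cyc G m f hf h =>
    intro hZ
    apply osc_cyc hMONO hPLANE hSPH m f hf G h hb hb0 _ hg w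
    intro i j hij h1 h2
    apply hZ (f i) (f j) (fun hh => hij (hf hh))
    · exact ⟨f (i + 1), (h _ _).mpr ⟨i, Or.inl ⟨rfl, rfl⟩⟩⟩
    · exact ⟨f (j + 1), (h _ _).mpr ⟨j, Or.inl ⟨rfl, rfl⟩⟩⟩
    · intro hadj
      obtain ⟨k, ⟨ha, hb'⟩ | ⟨ha, hb'⟩⟩ := (h _ _).mp hadj
      · have e1 := hf ha
        have e2 := hf hb'
        exact h1 (by rw [e2, e1])
      · have e1 := hf ha
        have e2 := hf hb'
        exact h2 (by rw [e2, e1])
  | glue G H w' h hG hH ihG ihH =>
    intro hZ
    apply osc_glue G H w' h hDs hD0 hD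
    · apply ihG
      intro i j hij ⟨y, hy⟩ ⟨z, hz⟩ hnadj
      apply hZ i j hij ⟨y, Or.inl hy⟩ ⟨z, Or.inl hz⟩
      rintro (h1 | h1)
      · exact hnadj h1
      · exact hij ((h i y j hy h1).trans (h j z i hz h1.symm).symm)
    · apply ihH
      intro i j hij ⟨y, hy⟩ ⟨z, hz⟩ hnadj
      apply hZ i j hij ⟨y, Or.inr hy⟩ ⟨z, Or.inr hz⟩
      rintro (h1 | h1)
      · exact hij ((h i j y h1 hy).trans (h j i z h1.symm hz).symm)
      · exact hnadj h1

theorem norm_pos (hMONO : S_MONO) (hPLANE : S_PLANE) (hSPH : S_SPH)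
    {b : V → V → ℝ} (hb : Psd (fun i j => b i j - 1)) (hb0 : ∀ i j, 0 ≤ b i j)
    {G : SimpleGraph V} (hG : Blk G) (hGb : ∀ i j, i ≠ j → ¬ G.Adj i j → b i j = 0)
    {B : ℝ} (hB : 2 ≤ B) (w : V → ℝ) :
    0 ≤ ∑ i, ∑ j, w i * (b i j ^ B - 1) * w j := by
  classical
  obtain ⟨N, hN, hN1, hN2⟩ := osc_all hMONO hPLANE hSPH hb hb0 (show 1 ≤ B - 1 by linarith) w G hG
    (fun i j hij _ _ hn => hGb i j hij hn)
  have hbp : Psd b := by
    constructor
    · intro i j
      have : b i j - 1 = b j i - 1 := hb.1 i j
      linarith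
    · intro x
      have h1 := hb.2 x
      have e : ∑ i, ∑ j, x i * b i j * x j = ∑ i, ∑ j, x i * (b i j - 1) * x j +
          (∑ i, x i) * (∑ i, x i) := by
        rw [sum_mul_sum, ← sum_add_distrib]
        apply sum_congr rfl; intro i _
        rw [← sum_add_distrib]
        apply sum_congr rfl; intro j _
        ring
      rw [e]
      exact add_nonneg h1 (mul_self_nonneg _)
  have h1 := psd_pair hbp hN
  have h2 := hb.2 w
  have h3 : ∑ i, ∑ j, b i j * N i j ≤ ∑ i, ∑ j, b i j * (w i * w j * (b i j ^ (B - 1) - 1)) := by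
    apply sum_le_sum; intro i _
    apply sum_le_sum; intro j _
    by_cases hij : i = j
    · subst hij
      rw [hN1 i]
    · by_cases hadj : G.Adj i j
      · exact mul_le_mul_of_nonneg_left (hN2 i j hadj) (hb0 i j)
      · rw [hGb i j hij hadj]; simp
  have e : ∑ i, ∑ j, w i * (b i j ^ B - 1) * w j = ∑ i, ∑ j, w i * (b i j - 1) * w j +
      ∑ i, ∑ j, b i j * (w i * w j * (b i j ^ (B - 1) - 1)) := by
    rw [← sum_add_distrib]
    apply sum_congr rfl; intro i _
    rw [← sum_add_distrib]
    apply sum_congr rfl; intro j _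
    rw [← rpow_split (hb0 i j) (show 1 ≤ B by linarith)]
    ring
  rw [e]
  linarith

theorem form_option (A : Option V → Option V → ℝ) (hs : ∀ i j, A i j = A j i)
    (x : Option V → ℝ) :
    ∑ i, ∑ j, x i * A i j * x j = x none * A none none * x none +
      2 * (x none * ∑ i, A none (some i) * x (some i)) +
      ∑ i, ∑ j, x (some i) * A (some i) (some j) * x (some j) := by
  rw [Fintype.sum_option]
  simp only [Fintype.sum_option]
  rw [sum_add_distrib]
  have e1 : ∑ i : V, x none * A none (some i) * x (some i) =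
      x none * ∑ i, A none (some i) * x (some i) := by
    rw [mul_sum]
    apply sum_congr rfl; intro i _; ring
  have e2 : ∑ i : V, x (some i) * A (some i) none * x none =
      x none * ∑ i, A none (some i) * x (some i) := by
    rw [mul_sum]
    apply sum_congr rfl; intro i _
    rw [hs (some i) none]; ring
  rw [e1, e2]
  ring

theorem cone_pos (hMONO : S_MONO) (hPLANE : S_PLANE) (hSPH : S_SPH)
    {G : SimpleGraph V} (hG : Blk G) {A : Option V → Option V → ℝ} (hA : Psd A)
    (hA0 : ∀ i j, 0 ≤ A i j)
    (hAG : ∀ i j, i ≠ j → ¬ G.Adj i j → A (some i) (some j) = 0)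
    (ha : 0 < A none none) (hv : ∀ i, 0 < A none (some i))
    {B : ℝ} (hB : 2 ≤ B) (x : Option V → ℝ) :
    0 ≤ ∑ i, ∑ j, x i * A i j ^ B * x j := by
  classical
  set a := A none none with hadef
  set v : V → ℝ := fun i => A none (some i) with hvdef
  have hvp : ∀ i, 0 < v i := hv
  set b : V → V → ℝ := fun i j => a * A (some i) (some j) / (v i * v j) with hbdef
  have hb0 : ∀ i j, 0 ≤ b i j := fun i j =>
    div_nonneg (mul_nonneg ha.le (hA0 _ _)) (mul_pos (hvp i) (hvp j)).le
  have hGb : ∀ i j, i ≠ j → ¬ G.Adj i j → b i j = 0 := by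
    intro i j hij hadj
    simp only [hbdef]
    rw [hAG i j hij hadj]; simp
  have hb : Psd (fun i j => b i j - 1) := by
    constructor
    · intro i j
      simp only [hbdef]
      rw [hA.1 (some i) (some j), mul_comm (v i)]
    · intro z
      have h1 := hA.2 (fun o => o.elim (-(∑ i, z i) / a) (fun i => z i / v i))
      rw [form_option A hA.1] at h1
      simp only [Option.elim] at h1
      have e1 : ∑ i, A none (some i) * (z i / v i) = ∑ i, z i := by
        apply sum_congr rfl; intro i _
        have := (hvp i).ne'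
        change v i * (z i / v i) = z i
        field_simp
      rw [e1] at h1
      have e2 : ∑ i, ∑ j, z i / v i * A (some i) (some j) * (z j / v j) =
          (∑ i, ∑ j, z i * b i j * z j) / a := by
        rw [sum_div]
        apply sum_congr rfl; intro i _
        rw [sum_div]
        apply sum_congr rfl; intro j _
        simp only [hbdef]
        have n1 := (hvp i).ne'
        have n2 := (hvp j).ne'
        have n3 := ha.ne'
        field_simp
      rw [e2] at h1
      have e3 : ∑ i, ∑ j, z i * (b i j - 1) * z j = ∑ i, ∑ j, z i * b i j * z j -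
          (∑ i, z i) * (∑ i, z i) := by
        rw [sum_mul_sum, ← sum_sub_distrib]
        apply sum_congr rfl; intro i _
        rw [← sum_sub_distrib]
        apply sum_congr rfl; intro j _
        ring
      simp only
      rw [e3]
      set X := ∑ i, z i
      set Y := ∑ i, ∑ j, z i * b i j * z j
      have e4 : -X / a * A none none * (-X / a) + 2 * (-X / a * X) + Y / a = (Y - X * X) / a := by
        have n3 := ha.ne'
        change -X / a * a * (-X / a) + 2 * (-X / a * X) + Y / a = (Y - X * X) / a
        field_simp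
        ring
      rw [e4] at h1
      have h2 := mul_nonneg h1 ha.le
      rwa [div_mul_cancel₀ _ ha.ne'] at h2
  have hsB : ∀ i j, A i j ^ B = A j i ^ B := fun i j => by rw [hA.1 i j]
  rw [form_option (fun i j => A i j ^ B) hsB]
  have haB : 0 < a ^ B := Real.rpow_pos_of_pos ha _
  have hn := norm_pos hMONO hPLANE hSPH hb hb0 hG hGb hB (fun i => x (some i) * v i ^ B)
  have e1 : ∑ i, ∑ j, x (some i) * A (some i) (some j) ^ B * x (some j) =
      (∑ i, ∑ j, (x (some i) * v i ^ B) * b i j ^ B * (x (some j) * v j ^ B)) / a ^ B := by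
    rw [sum_div]
    apply sum_congr rfl; intro i _
    rw [sum_div]
    apply sum_congr rfl; intro j _
    simp only [hbdef]
    rw [Real.div_rpow (mul_nonneg ha.le (hA0 _ _)) (mul_pos (hvp i) (hvp j)).le,
      Real.mul_rpow ha.le (hA0 _ _), Real.mul_rpow (hvp i).le (hvp j).le]
    have n1 := (Real.rpow_pos_of_pos (hvp i) B).ne'
    have n2 := (Real.rpow_pos_of_pos (hvp j) B).ne'
    have n3 := haB.ne'
    field_simp
  have e2 : ∑ i, ∑ j, (x (some i) * v i ^ B) * (b i j ^ B - 1) * (x (some j) * v j ^ B) =
      ∑ i, ∑ j, (x (some i) * v i ^ B) * b i j ^ B * (x (some j) * v j ^ B) -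
      (∑ i, x (some i) * v i ^ B) * (∑ i, x (some i) * v i ^ B) := by
    rw [sum_mul_sum, ← sum_sub_distrib]
    apply sum_congr rfl; intro i _
    rw [← sum_sub_distrib]
    apply sum_congr rfl; intro j _
    ring
  rw [e2] at hn
  rw [e1]
  have e3 : ∑ i, A none (some i) ^ B * x (some i) = ∑ i, x (some i) * v i ^ B := by
    apply sum_congr rfl; intro i _
    change v i ^ B * x (some i) = _
    ring
  rw [e3]
  set X := ∑ i, x (some i) * v i ^ B
  set Y := ∑ i, ∑ j, (x (some i) * v i ^ B) * b i j ^ B * (x (some j) * v j ^ B)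
  set T := a ^ B
  have e4 : x none * T * x none + 2 * (x none * X) + Y / T =
      ((x none * T + X) * (x none * T + X) + (Y - X * X)) / T := by
    have n3 := haB.ne'
    field_simp
    ring
  change 0 ≤ x none * T * x none + 2 * (x none * X) + Y / T
  rw [e4]
  apply div_nonneg _ haB.le
  exact add_nonneg (mul_self_nonneg _) hn

/-- the perturbing matrix -/
noncomputable def pert (V : Type) [Fintype V] [DecidableEq V] : Option V → Option V → ℝ
  | none, none => (Fintype.card V : ℝ) + 1
  | none, some _ => 1
  | some _, none => 1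
  | some i, some j => if i = j then 1 else 0

theorem cone_pos_all (hMONO : S_MONO) (hPLANE : S_PLANE) (hSPH : S_SPH)
    {G : SimpleGraph V} (hG : Blk G) {A : Option V → Option V → ℝ} (hA : Psd A)
    (hA0 : ∀ i j, 0 ≤ A i j)
    (hAG : ∀ i j, i ≠ j → ¬ G.Adj i j → A (some i) (some j) = 0)
    {B : ℝ} (hB : 2 ≤ B) (x : Option V → ℝ) :
    0 ≤ ∑ i, ∑ j, x i * A i j ^ B * x j := by
  classical
  have hPs : ∀ i j, pert V i j = pert V j i := by
    intro i j
    match i, j with
    | none, none => rfl
    | none, some _ => rfl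
    | some _, none => rfl
    | some i, some j =>
      by_cases h : i = j
      · rw [h]
      · simp only [pert, if_neg h, if_neg (Ne.symm h)]
  have hP : Psd (pert V) := by
    refine ⟨hPs, ?_⟩
    intro z
    rw [form_option _ hPs]
    simp only [pert]
    have e1 : ∑ i : V, ∑ j : V, z (some i) * (if i = j then (1:ℝ) else 0) * z (some j) =
        ∑ i : V, z (some i) * z (some i) := by
      apply sum_congr rfl; intro i _
      simp
    rw [e1]
    have e2 : ∑ i : V, (z none + z (some i)) * (z none + z (some i)) =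
        (Fintype.card V : ℝ) * (z none * z none) + 2 * (z none * ∑ i : V, 1 * z (some i)) +
        ∑ i : V, z (some i) * z (some i) := by
      have : ∀ i : V, (z none + z (some i)) * (z none + z (some i)) =
          z none * z none + 2 * (z none * (1 * z (some i))) + z (some i) * z (some i) := by
        intro i; ring
      rw [sum_congr rfl (fun i _ => this i), sum_add_distrib, sum_add_distrib, sum_const,
        card_univ, nsmul_eq_mul, mul_sum, mul_sum]
    have e3 : 0 ≤ ∑ i : V, (z none + z (some i)) * (z none + z (some i)) :=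
      sum_nonneg (fun i _ => mul_self_nonneg _)
    have e4 := mul_self_nonneg (z none)
    nlinarith [e2, e3, e4]
  have hP0 : ∀ i j, 0 ≤ pert V i j := by
    intro i j
    match i, j with
    | none, none => simp only [pert]; positivity
    | none, some _ => simp only [pert]; norm_num
    | some _, none => simp only [pert]; norm_num
    | some i, some j => simp only [pert]; split_ifs <;> norm_num
  set F : ℝ → ℝ := fun e => ∑ i, ∑ j, x i * (A i j + e * pert V i j) ^ B * x j with hF
  have hcont : Continuous F := by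
    simp only [hF]
    apply continuous_finsetSum; intro i _
    apply continuous_finsetSum; intro j _
    apply Continuous.mul _ continuous_const
    apply Continuous.mul continuous_const
    apply Continuous.rpow_const
    · fun_prop
    · intro _; right; linarith
  have hpos : ∀ e : ℝ, 0 < e → 0 ≤ F e := by
    intro e he
    simp only [hF]
    apply cone_pos hMONO hPLANE hSPH hG (A := fun i j => A i j + e * pert V i j) _ _ _ _ _ hB x
    · constructor
      · intro i j
        simp only
        rw [hA.1 i j, hPs i j]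
      · intro z
        have h1 := hA.2 z
        have h2 := hP.2 z
        have e1 : ∑ i, ∑ j, z i * (A i j + e * pert V i j) * z j =
            ∑ i, ∑ j, z i * A i j * z j + e * ∑ i, ∑ j, z i * pert V i j * z j := by
          rw [mul_sum, ← sum_add_distrib]
          apply sum_congr rfl; intro i _
          rw [mul_sum, ← sum_add_distrib]
          apply sum_congr rfl; intro j _
          ring
        rw [e1]
        exact add_nonneg h1 (mul_nonneg he.le h2)
    · intro i j
      exact add_nonneg (hA0 i j) (mul_nonneg he.le (hP0 i j))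
    · intro i j hij hadj
      simp only [pert]
      rw [hAG i j hij hadj, if_neg hij]; simp
    · simp only [pert]
      have := hA0 none none
      positivity
    · intro i
      simp only [pert]
      have := hA0 none (some i)
      linarith
  have hlim : Filter.Tendsto F (nhdsWithin 0 (Set.Ioi 0)) (nhds (F 0)) :=
    (hcont.tendsto 0).mono_left nhdsWithin_le_nhds
  have h0 : 0 ≤ F 0 := ge_of_tendsto hlim (eventually_nhdsWithin_of_forall (fun e he => hpos e he))
  simpa [hF] using h0

end E8h27.CB
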