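import Pool.Agent.E8helper27.CB.Qs

/-! Final assembly of the strong form (helper27, project CB2). -/

namespace E8h27.CB

open Finset

theorem low_bound (hLOW : S_LOWK) {V : Type} [Fintype V] (G : SimpleGraph V) (k : ℕ)
    (S : Finset V) (p q : V) (hcard : S.card = k + 1) (hS : ∀ s ∈ S, ∀ t ∈ S, s ≠ t → G.Adj s t)
    (hp : p ∉ S) (hq : q ∉ S) (hpq : p ≠ q) (hadj : ∀ s ∈ S, G.Adj s p ∧ G.Adj s q) :
    ∀ a, Good G a → (k : ℝ) + 1 ≤ a := by
  intro a ha
  by_contra hlt
  push Not at hlt
  obtain ⟨b, hb1, hb2⟩ := exists_between (max_lt hlt (lt_add_one (k : ℝ)))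
  have hb3 : a < b := lt_of_le_of_lt (le_max_left _ _) hb1
  have hb4 : (k : ℝ) < b := lt_of_le_of_lt (le_max_right _ _) hb1
  obtain ⟨A, hA, hA0, hAG, x, hx⟩ := hLOW k b hb4 hb2 V G S p q hcard hS hp hq hpq hadj
  exact not_good_of hb3.le (lt_of_le_of_lt (Nat.cast_nonneg _) hb4) hA hA0 hAG hx ha

theorem low_cone (hLOW : S_LOWK) {V : Type} [Fintype V] (G : SimpleGraph V) (k : ℕ)
    (S : Finset V) (p q : V) (hcard : S.card = k + 1) (hS : ∀ s ∈ S, ∀ t ∈ S, s ≠ t → G.Adj s t)
    (hp : p ∉ S) (hq : q ∉ S) (hpq : p ≠ q) (hadj : ∀ s ∈ S, G.Adj s p ∧ G.Adj s q) :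
    ∀ a, Good (cone G) a → (k : ℝ) + 2 ≤ a := by
  classical
  intro a ha
  have hmem : ∀ z : V, some z ∈ insert none (S.map Function.Embedding.some) ↔ z ∈ S := by
    intro z; simp
  have h := low_bound hLOW (cone G) (k + 1) (insert none (S.map Function.Embedding.some))
    (some p) (some q)
    (by rw [card_insert_of_notMem (by simp), card_map, hcard])
    (by
      intro s hs t ht hst
      match s, t, hs, ht, hst with
      | none, none, _, _, hst => exact absurd rfl hst
      | none, some _, _, _, _ => exact trivial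
      | some _, none, _, _, _ => exact trivial
      | some s, some t, hs, ht, hst =>
        exact hS s ((hmem s).mp hs) t ((hmem t).mp ht) (fun h => hst (by rw [h])))
    (fun h => hp ((hmem p).mp h)) (fun h => hq ((hmem q).mp h))
    (fun h => hpq (Option.some_injective _ h))
    (by
      intro s hs
      match s, hs with
      | none, _ => exact ⟨trivial, trivial⟩
      | some s, hs => exact hadj s ((hmem s).mp hs))
    a ha
  push_cast at h
  linarith

/-- the copy of `G` on the old vertices of the cone -/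
def lift {V : Type} (G : SimpleGraph V) : SimpleGraph (Option V) where
  Adj x y := ∃ u v, x = some u ∧ y = some v ∧ G.Adj u v
  symm := ⟨by
    rintro x y ⟨u, v, hu, hv, h⟩
    exact ⟨v, u, hv, hu, h.symm⟩⟩
  loopless := ⟨by
    rintro x ⟨u, v, hu, hv, h⟩
    rw [hu] at hv
    exact h.ne (Option.some_injective _ hv)⟩

theorem blk_lift {V : Type} {G : SimpleGraph V} (hG : Blk G) : Blk (lift G) := by
  induction hG with
  | bip G c h =>
    apply Blk.bip _ (fun o => o.elim true c)
    rintro x y ⟨u, v, rfl, rfl, huv⟩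
    exact h u v huv
  | cyc G m f hf h =>
    apply Blk.cyc _ m (fun i => some (f i)) (fun i j hij => hf (Option.some_injective _ hij))
    intro x y
    constructor
    · rintro ⟨u, v, rfl, rfl, huv⟩
      obtain ⟨i, ⟨h1, h2⟩ | ⟨h1, h2⟩⟩ := (h u v).mp huv
      · exact ⟨i, Or.inl ⟨by rw [h1], by rw [h2]⟩⟩
      · exact ⟨i, Or.inr ⟨by rw [h1], by rw [h2]⟩⟩
    · rintro ⟨i, ⟨h1, h2⟩ | ⟨h1, h2⟩⟩
      · exact ⟨f i, f (i + 1), h1, h2, (h _ _).mpr ⟨i, Or.inl ⟨rfl, rfl⟩⟩⟩
      · exact ⟨f (i + 1), f i, h2, h1, (h _ _).mpr ⟨i, Or.inr ⟨rfl, rfl⟩⟩⟩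
  | glue G H w h hG hH ihG ihH =>
    have e : lift (G ⊔ H) = lift G ⊔ lift H := by
      ext x y
      constructor
      · rintro ⟨u, v, hu, hv, h1 | h1⟩
        · exact Or.inl ⟨u, v, hu, hv, h1⟩
        · exact Or.inr ⟨u, v, hu, hv, h1⟩
      · rintro (⟨u, v, hu, hv, h1⟩ | ⟨u, v, hu, hv, h1⟩)
        · exact ⟨u, v, hu, hv, Or.inl h1⟩
        · exact ⟨u, v, hu, hv, Or.inr h1⟩
    rw [e]
    apply Blk.glue _ _ (some w) _ ihG ihH
    rintro x y z ⟨u, v, rfl, rfl, h1⟩ ⟨u', v', hu', rfl, h2⟩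
    have : u = u' := Option.some_injective _ hu'
    subst this
    rw [h u v v' h1 h2]

theorem cone_good (hPLANE : S_PLANE) (hSPHS : S_SPHS) {V : Type} [Fintype V]
    (G : SimpleGraph V) (K : Finset V) (hG : Blk (minus G K)) :
    Good (cone G) ((K.card : ℝ) + 2) := by
  classical
  apply good_of (by positivity)
  intro b hb A hA hA0 hAG x
  apply pow_pos_K hPLANE hSPHS (K.map Function.Embedding.some) (cone G) none _ hA hA0 hAG
    (by rw [card_map]; exact hb) x
  have e : minus (cone G) (insert none (K.map Function.Embedding.some)) = lift (minus G K) := by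
    ext x y
    constructor
    · rintro ⟨h1, h2, h3⟩
      match x, y, h1, h2, h3 with
      | none, _, _, h2, _ => exact absurd (mem_insert_self _ _) h2
      | some _, none, _, _, h3 => exact absurd (mem_insert_self _ _) h3
      | some u, some v, h1, h2, h3 =>
        refine ⟨u, v, rfl, rfl, h1, ?_, ?_⟩
        · intro hu; apply h2; simp [hu]
        · intro hv; apply h3; simp [hv]
    · rintro ⟨u, v, rfl, rfl, h1, h2, h3⟩
      refine ⟨h1, ?_, ?_⟩
      · simp [h2]
      · simp [h3]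
  rw [e]
  exact blk_lift hG

theorem self_good (hPLANE : S_PLANE) (hSPHS : S_SPHS) {V : Type} [Fintype V]
    (G : SimpleGraph V) (K : Finset V) (hK : K.Nonempty) (hG : Blk (minus G K)) :
    Good G ((K.card : ℝ) + 1) := by
  classical
  apply good_of (by positivity)
  intro b hb A hA hA0 hAG x
  obtain ⟨v0, hv0⟩ := hK
  have hc : (K.erase v0).card + 1 = K.card := card_erase_add_one hv0
  apply pow_pos_K hPLANE hSPHS (K.erase v0) G v0 _ hA hA0 hAG
    (by
      have : ((K.erase v0).card : ℝ) + 1 = K.card := by exact_mod_cast hc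
      linarith) x
  rwa [insert_erase hv0]

end E8h27.CB
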