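import Pool.Agent.E8helper27.CB.Stm2

/-! Odd cycles, strong form (MP_773c61_co, project CB2, piece SPHS). -/

namespace E8h27.CB

/-- SPHS: for unit vectors in cyclic order (odd number at least five), with non-adjacent ones at
angle at least `pi / 2`, the lines through consecutive ones make angles of total at least `pi`. -/
def S_SPHS : Prop :=
  ∀ (m : ℕ) (R : Fin (2 * m + 5) → Fin (2 * m + 5) → ℝ),
    Psd R → (∀ i, R i i = 1) →
    (∀ i j, i ≠ j → j ≠ i + 1 → i ≠ j + 1 → R i j ≤ 0) →
    Real.pi ≤ ∑ i, Real.arccos |R i (i + 1)|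

end E8h27.CB
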