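import Pool.Agent.E8helper27.CB.Fin
import Pool.Agent.E8helper27.CB.Stm3

/-! Strong form: the base case (helper27, project CB2). -/

namespace E8h27.CB

open Finset

variable {V : Type} [Fintype V]

theorem fin_pred_ne (m : ℕ) (i : Fin (2 * m + 5)) : i - 1 ≠ i := by
  intro hc
  have h0 : (1 : Fin (2 * m + 5)) = 0 := by
    have h1 : i - 1 = i - 0 := by rw [sub_zero]; exact hc
    have h2 := sub_right_injective h1
    exact h2
  have := congrArg Fin.val h0
  simp at this

theorem angsum {m : ℕ} (hSPHS : S_SPHS) {R E : Fin (2 * m + 5) → Fin (2 * m + 5) → ℝ}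
    (hR : Psd R) (hRn : ∀ i j, i ≠ j → j ≠ i + 1 → i ≠ j + 1 → R i j ≤ 0)
    (hE0 : ∀ i, 0 ≤ E i i) (hE : ∀ i j, E i j * E i j ≤ E i i * E j j) :
    Real.pi ≤ ∑ i, Real.arccos |R i (i + 1) * E i (i + 1) /
      (Real.sqrt (R i i * E i i) * Real.sqrt (R (i + 1) (i + 1) * E (i + 1) (i + 1)))| := by
  classical
  have hR0 : ∀ i, 0 ≤ R i i := psd_diag hR
  by_cases hall : ∀ i, R i i * E i i ≠ 0
  · have hRp : ∀ i, 0 < R i i := fun i =>
      lt_of_le_of_ne (hR0 i) (Ne.symm (left_ne_zero_of_mul (hall i)))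
    have hEp : ∀ i, 0 < E i i := fun i =>
      lt_of_le_of_ne (hE0 i) (Ne.symm (right_ne_zero_of_mul (hall i)))
    have hsR : ∀ i, 0 < Real.sqrt (R i i) := fun i => Real.sqrt_pos.mpr (hRp i)
    have hsE : ∀ i, 0 < Real.sqrt (E i i) := fun i => Real.sqrt_pos.mpr (hEp i)
    have hn : Psd (fun i j => R i j / (Real.sqrt (R i i) * Real.sqrt (R j j))) := by
      constructor
      · intro i j
        simp only
        rw [hR.1 i j, mul_comm (Real.sqrt (R i i))]
      · intro x
        have h1 := hR.2 (fun i => x i / Real.sqrt (R i i))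
        refine le_of_le_of_eq h1 ?_
        apply sum_congr rfl; intro i _
        apply sum_congr rfl; intro j _
        have n1 := (hsR i).ne'
        have n2 := (hsR j).ne'
        field_simp
    have h1 := hSPHS m _ hn
      (by
        intro i
        skip
        rw [Real.mul_self_sqrt (hR0 i)]
        exact div_self (hRp i).ne')
      (by
        intro i j k1 k2 k3
        exact div_nonpos_of_nonpos_of_nonneg (hRn i j k1 k2 k3) (mul_pos (hsR i) (hsR j)).le)
    refine le_trans h1 ?_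
    apply sum_le_sum; intro i _
    apply Real.arccos_le_arccos
    rw [Real.sqrt_mul (hR0 i), Real.sqrt_mul (hR0 (i + 1))]
    have e : R i (i + 1) * E i (i + 1) / (Real.sqrt (R i i) * Real.sqrt (E i i) *
        (Real.sqrt (R (i + 1) (i + 1)) * Real.sqrt (E (i + 1) (i + 1)))) =
        (R i (i + 1) / (Real.sqrt (R i i) * Real.sqrt (R (i + 1) (i + 1)))) *
        (E i (i + 1) / (Real.sqrt (E i i) * Real.sqrt (E (i + 1) (i + 1)))) := by
      rw [div_mul_div_comm]
      congr 1
      ring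
    rw [e, abs_mul]
    have h2 : |E i (i + 1) / (Real.sqrt (E i i) * Real.sqrt (E (i + 1) (i + 1)))| ≤ 1 := by
      rw [abs_div, abs_of_pos (mul_pos (hsE i) (hsE (i + 1))), div_le_one (mul_pos (hsE i) (hsE _))]
      rw [← Real.sqrt_mul (hE0 i)]
      apply Real.abs_le_sqrt
      rw [sq]; exact hE i (i + 1)
    exact mul_le_of_le_one_right (abs_nonneg _) h2
  · push Not at hall
    obtain ⟨i0, hi0⟩ := hall
    have hne := fin_pred_ne m i0
    have hnn : ∀ i, 0 ≤ Real.arccos |R i (i + 1) * E i (i + 1) /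
      (Real.sqrt (R i i * E i i) * Real.sqrt (R (i + 1) (i + 1) * E (i + 1) (i + 1)))| :=
      fun i => Real.arccos_nonneg _
    have h1 : Real.arccos |R i0 (i0 + 1) * E i0 (i0 + 1) /
      (Real.sqrt (R i0 i0 * E i0 i0) * Real.sqrt (R (i0 + 1) (i0 + 1) * E (i0 + 1) (i0 + 1)))| =
        Real.pi / 2 := by
      rw [hi0]; simp
    have h2 : Real.arccos |R (i0 - 1) (i0 - 1 + 1) * E (i0 - 1) (i0 - 1 + 1) /
      (Real.sqrt (R (i0 - 1) (i0 - 1) * E (i0 - 1) (i0 - 1)) *
        Real.sqrt (R (i0 - 1 + 1) (i0 - 1 + 1) * E (i0 - 1 + 1) (i0 - 1 + 1)))| =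
        Real.pi / 2 := by
      rw [sub_add_cancel, hi0]; simp
    have h3 := Finset.sum_le_sum_of_subset_of_nonneg (subset_univ {i0 - 1, i0})
      (fun i _ _ => hnn i)
    rw [Finset.sum_pair hne, h1, h2] at h3
    linarith

theorem osc_cyc2 (hPLANE : S_PLANE) (hSPHS : S_SPHS)
    (m : ℕ) (f : Fin (2 * m + 5) → V) (hf : Function.Injective f) (G : SimpleGraph V)
    (h : ∀ u v, G.Adj u v ↔ ∃ i, (u = f i ∧ v = f (i + 1)) ∨ (v = f i ∧ u = f (i + 1)))
    {R E : V → V → ℝ} (hR : Psd R) (hEs : ∀ i j, E i j = E j i)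
    (hE0 : ∀ i, 0 ≤ E i i) (hE : ∀ i j, E i j * E i j ≤ E i i * E j j)
    (hZ : ∀ i j : Fin (2 * m + 5), i ≠ j → j ≠ i + 1 → i ≠ j + 1 → R (f i) (f j) ≤ 0)
    (w : V → ℝ) :
    OSC G (fun i j => w i * w j * (R i j * E i j)) := by
  classical
  have hR0 : ∀ i, 0 ≤ R i i := psd_diag hR
  have hRf : Psd (fun i j : Fin (2 * m + 5) => R (f i) (f j)) := by
    constructor
    · intro i j; exact hR.1 _ _
    · intro x
      have h3 := hR.2 (fun v => ∑ i, if f i = v then x i else 0)
      have e1 : ∀ (F : V → ℝ), ∑ u, (∑ i, if f i = u then x i else 0) * F u =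
          ∑ i, x i * F (f i) := by
        intro F
        simp only [sum_mul]
        rw [sum_comm]
        apply sum_congr rfl; intro i _
        simp [ite_mul]
      have e2 : ∀ u, ∑ v, (∑ i, if f i = u then x i else 0) * R u v *
        (∑ i, if f i = v then x i else 0) =
          (∑ i, if f i = u then x i else 0) * ∑ j, x j * R u (f j) := by
        intro u
        rw [← e1 (fun v => R u v), mul_sum]
        apply sum_congr rfl; intro v _
        ring
      rw [sum_congr rfl (fun u _ => e2 u), e1] at h3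
      refine le_of_le_of_eq h3 ?_
      apply sum_congr rfl; intro i _
      rw [mul_sum]
      apply sum_congr rfl; intro j _
      ring
  have hS := angsum (m := m) hSPHS (R := fun i j => R (f i) (f j)) (E := fun i j => E (f i) (f j))
    hRf hZ (fun i => hE0 _) (fun i j => hE _ _)
  set sg : Fin (2 * m + 5) → ℝ := fun i => Real.sqrt (R (f i) (f i) * E (f i) (f i)) with hsg
  have hsg0 : ∀ i, 0 ≤ sg i := fun i => Real.sqrt_nonneg _
  have hsg2 : ∀ i, sg i * sg i = R (f i) (f i) * E (f i) (f i) := fun i =>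
    Real.mul_self_sqrt (mul_nonneg (hR0 _) (hE0 _))
  set eta : Fin (2 * m + 5) → ℝ := fun i => if w (f i) < 0 then -1 else 1 with heta
  have heta1 : ∀ i, eta i = 1 ∨ eta i = -1 := by
    intro i
    simp only [heta]
    split_ifs
    · right; rfl
    · left; rfl
  set kap : Fin (2 * m + 5) → ℝ :=
    fun i => R (f i) (f (i + 1)) * E (f i) (f (i + 1)) / (sg i * sg (i + 1)) with hkap
  have hS' : Real.pi ≤ ∑ i, Real.arccos |kap i| := hS
  have habs : ∀ i, |eta i * eta (i + 1) * kap i| = |kap i| := by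
    intro i
    rw [abs_mul, abs_mul]
    have t1 : |eta i| = 1 := by rcases heta1 i with h | h <;> rw [h] <;> simp
    have t2 : |eta (i + 1)| = 1 := by rcases heta1 (i + 1) with h | h <;> rw [h] <;> simp
    rw [t1, t2, one_mul, one_mul]
  set rho : Fin (2 * m + 5) → ℝ := fun i => |w (f i)| * sg i with hrho
  obtain ⟨p, q, hpq, hpq2⟩ := hPLANE m rho (fun i => Real.arccos (eta i * eta (i + 1) * kap i))
    (fun i => mul_nonneg (abs_nonneg _) (hsg0 i))
    (fun i => ⟨Real.arccos_nonneg _, Real.arccos_le_pi _⟩)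
    (by
      refine le_trans hS' ?_
      apply sum_le_sum; intro i _
      rw [← Real.arccos_neg]
      apply Real.arccos_le_arccos
      rw [← habs i]
      exact neg_le_abs _)
  have hprod : ∀ i, (R (f i) (f (i + 1)) * E (f i) (f (i + 1))) *
      (R (f i) (f (i + 1)) * E (f i) (f (i + 1))) ≤ (sg i * sg (i + 1)) * (sg i * sg (i + 1)) := by
    intro i
    have h1 := psd_two hR (f i) (f (i + 1))
    have h2 := hE (f i) (f (i + 1))
    calc (R (f i) (f (i + 1)) * E (f i) (f (i + 1))) * (R (f i) (f (i + 1)) * E (f i) (f (i + 1)))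
        = (R (f i) (f (i + 1)) * R (f i) (f (i + 1))) *
          (E (f i) (f (i + 1)) * E (f i) (f (i + 1))) := by ring
      _ ≤ (R (f i) (f i) * R (f (i + 1)) (f (i + 1))) *
          (E (f i) (f i) * E (f (i + 1)) (f (i + 1))) :=
          mul_le_mul h1 h2 (mul_self_nonneg _) (mul_nonneg (hR0 _) (hR0 _))
      _ = (R (f i) (f i) * E (f i) (f i)) * (R (f (i + 1)) (f (i + 1)) *
          E (f (i + 1)) (f (i + 1))) := by ring
      _ = (sg i * sg i) * (sg (i + 1) * sg (i + 1)) := by rw [hsg2, hsg2]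
      _ = _ := by ring
  have hss : ∀ i, 0 ≤ sg i * sg (i + 1) := fun i => mul_nonneg (hsg0 _) (hsg0 _)
  have hk1 : ∀ i, |kap i| ≤ 1 := by
    intro i
    simp only [hkap]
    rcases eq_or_lt_of_le (hss i) with h0 | hpos
    · rw [← h0]; simp
    · rw [abs_div, abs_of_pos hpos, div_le_one hpos]
      apply abs_le_of_sq_le_sq _ hpos.le
      rw [sq, sq]; exact hprod i
  have hpq3 : ∀ i, p i * p (i + 1) + q i * q (i + 1) ≤
      w (f i) * w (f (i + 1)) * (R (f i) (f (i + 1)) * E (f i) (f (i + 1))) := by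
    intro i
    refine le_of_le_of_eq (hpq2 i) ?_
    have hab : |eta i * eta (i + 1) * kap i| ≤ 1 := by rw [habs i]; exact hk1 i
    rw [Real.cos_arccos (by linarith [neg_abs_le (eta i * eta (i + 1) * kap i)])
      (by linarith [le_abs_self (eta i * eta (i + 1) * kap i)])]
    simp only [hrho, hkap]
    have t1 : eta i * |w (f i)| = w (f i) := sgn_mul_abs _
    have t2 : eta (i + 1) * |w (f (i + 1))| = w (f (i + 1)) := sgn_mul_abs _
    have t3 : sg i * sg (i + 1) * (R (f i) (f (i + 1)) * E (f i) (f (i + 1)) /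
        (sg i * sg (i + 1))) = R (f i) (f (i + 1)) * E (f i) (f (i + 1)) := by
      rcases eq_or_lt_of_le (hss i) with h0 | hpos
      · have h1 := hprod i
        rw [← h0] at h1
        have h2 : R (f i) (f (i + 1)) * E (f i) (f (i + 1)) = 0 := by
          nlinarith [mul_self_nonneg (R (f i) (f (i + 1)) * E (f i) (f (i + 1)))]
        rw [h2]; simp
      · rw [mul_div_assoc', mul_div_cancel_left₀ _ hpos.ne']
    calc |w (f i)| * sg i * (|w (f (i + 1))| * sg (i + 1)) * (eta i * eta (i + 1) *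
          (R (f i) (f (i + 1)) * E (f i) (f (i + 1)) / (sg i * sg (i + 1))))
        = (eta i * |w (f i)|) * (eta (i + 1) * |w (f (i + 1))|) *
          (sg i * sg (i + 1) * (R (f i) (f (i + 1)) * E (f i) (f (i + 1)) /
          (sg i * sg (i + 1)))) := by ring
      _ = _ := by rw [t1, t2, t3]
  -- extend to V
  set P : V → ℝ := fun v => ∑ i, if f i = v then p i else 0 with hP
  set Q : V → ℝ := fun v => ∑ i, if f i = v then q i else 0 with hQ
  have hPf : ∀ i, P (f i) = p i := by
    intro i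
    simp only [hP]
    rw [sum_eq_single i]
    · simp
    · intro j _ hj
      rw [if_neg (fun h => hj (hf h))]
    · simp
  have hQf : ∀ i, Q (f i) = q i := by
    intro i
    simp only [hQ]
    rw [sum_eq_single i]
    · simp
    · intro j _ hj
      rw [if_neg (fun h => hj (hf h))]
    · simp
  have hPo : ∀ v, (∀ i, f i ≠ v) → P v = 0 := by
    intro v hv
    simp only [hP]
    apply sum_eq_zero; intro i _
    rw [if_neg (hv i)]
  have hQo : ∀ v, (∀ i, f i ≠ v) → Q v = 0 := by
    intro v hv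
    simp only [hQ]
    apply sum_eq_zero; intro i _
    rw [if_neg (hv i)]
  have hDg : ∀ v, 0 ≤ w v * w v * (R v v * E v v) := by
    intro v
    exact mul_nonneg (mul_self_nonneg _) (mul_nonneg (hR0 v) (hE0 v))
  set Fl : V → ℝ := fun v => if (∃ i, f i = v) then 0 else w v * w v * (R v v * E v v) with hFl
  have hFl0 : ∀ v, 0 ≤ Fl v := by
    intro v
    simp only [hFl]
    split_ifs
    · exact le_refl _
    · exact hDg v
  refine ⟨fun u v => P u * P v + Q u * Q v + (if u = v then Fl u else 0), ⟨?_, ?_⟩, ?_, ?_⟩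
  · intro u v
    by_cases huv : u = v
    · rw [huv]
    · simp only [if_neg huv, if_neg (Ne.symm huv)]; ring
  · intro x
    have e : ∑ u, ∑ v, x u * (P u * P v + Q u * Q v + (if u = v then Fl u else 0)) * x v =
        (∑ u, x u * P u) * (∑ u, x u * P u) + (∑ u, x u * Q u) * (∑ u, x u * Q u) +
        ∑ u, x u * Fl u * x u := by
      rw [sum_mul_sum, sum_mul_sum, ← sum_add_distrib, ← sum_add_distrib]
      apply sum_congr rfl; intro u _
      have t : ∀ v, x u * (P u * P v + Q u * Q v + (if u = v then Fl u else 0)) * x v =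
          x u * P u * (x v * P v) + x u * Q u * (x v * Q v) +
          (if u = v then x u * Fl u * x v else 0) := by
        intro v
        split_ifs <;> ring
      rw [sum_congr rfl (fun v _ => t v), sum_add_distrib, sum_add_distrib]
      simp
    rw [e]
    have e3 : 0 ≤ ∑ u, x u * Fl u * x u := by
      apply sum_nonneg; intro u _
      nlinarith [mul_nonneg (hFl0 u) (mul_self_nonneg (x u))]
    have e1 := mul_self_nonneg (∑ u, x u * P u)
    have e2 := mul_self_nonneg (∑ u, x u * Q u)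
    linarith
  · intro v
    simp only [if_true]
    by_cases hv : ∃ i, f i = v
    · obtain ⟨i, rfl⟩ := hv
      have hEi : Fl (f i) = 0 := by
        simp only [hFl]
        rw [if_pos ⟨i, rfl⟩]
      rw [hPf, hQf, hEi, add_zero, hpq i]
      simp only [hrho]
      have := hsg2 i
      calc |w (f i)| * sg i * (|w (f i)| * sg i) = (|w (f i)| * |w (f i)|) * (sg i * sg i) := by ring
        _ = _ := by rw [abs_mul_abs_self, this]
    · have hv' : ∀ i, f i ≠ v := fun i hi => hv ⟨i, hi⟩
      rw [hPo v hv', hQo v hv']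
      simp only [hFl, if_neg hv]
      ring
  · intro u v huv
    have hne : u ≠ v := huv.ne
    simp only [if_neg hne, add_zero]
    obtain ⟨i, ⟨hu, hv⟩ | ⟨hv, hu⟩⟩ := (h u v).mp huv
    · rw [hu, hv, hPf, hPf, hQf, hQf]
      exact hpq3 i
    · rw [hu, hv, hPf, hPf, hQf, hQf]
      have h3 := hpq3 i
      rw [hR.1 (f (i + 1)) (f i), hEs (f (i + 1)) (f i)]
      nlinarith [h3]


theorem osc_all2 (hPLANE : S_PLANE) (hSPHS : S_SPHS)
    {R E : V → V → ℝ} (hR : Psd R) (hEs : ∀ i j, E i j = E j i)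
    (hE0 : ∀ i, 0 ≤ E i i) (hE : ∀ i j, E i j * E i j ≤ E i i * E j j) (w : V → ℝ) :
    ∀ G : SimpleGraph V, Blk G →
      (∀ i j, i ≠ j → (∃ y, G.Adj i y) → (∃ y, G.Adj j y) → ¬ G.Adj i j → R i j ≤ 0) →
      OSC G (fun i j => w i * w j * (R i j * E i j)) := by
  have hR0 : ∀ i, 0 ≤ R i i := psd_diag hR
  have hD0 : ∀ i, 0 ≤ w i * w i * (R i i * E i i) := fun i =>
    mul_nonneg (mul_self_nonneg _) (mul_nonneg (hR0 i) (hE0 i))
  have hD : ∀ i j, (w i * w j * (R i j * E i j)) * (w i * w j * (R i j * E i j)) ≤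
      (w i * w i * (R i i * E i i)) * (w j * w j * (R j j * E j j)) := by
    intro i j
    have h1 := psd_two hR i j
    have h2 := hE i j
    calc (w i * w j * (R i j * E i j)) * (w i * w j * (R i j * E i j))
        = ((w i * w j) * (w i * w j)) * ((R i j * R i j) * (E i j * E i j)) := by ring
      _ ≤ ((w i * w j) * (w i * w j)) * ((R i i * R j j) * (E i i * E j j)) :=
          mul_le_mul_of_nonneg_left (mul_le_mul h1 h2 (mul_self_nonneg _)
            (mul_nonneg (hR0 i) (hR0 j))) (mul_self_nonneg _)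
      _ = _ := by ring
  have hDs : ∀ i j, w i * w j * (R i j * E i j) = w j * w i * (R j i * E j i) := by
    intro i j
    rw [hR.1 i j, hEs i j]; ring
  intro G hG
  induction hG with
  | bip G c h =>
    intro _
    exact osc_bip G c h hD0 hD
  | cyc G m f hf h =>
    intro hZ
    apply osc_cyc2 hPLANE hSPHS m f hf G h hR hEs hE0 hE _ w
    intro i j hij h1 h2
    apply hZ (f i) (f j) (fun hh => hij (hf hh))
    · exact ⟨f (i + 1), (h _ _).mpr ⟨i, Or.inl ⟨rfl, rfl⟩⟩⟩
    · exact ⟨f (j + 1), (h _ _).mpr ⟨j, Or.inl ⟨rfl, rfl⟩⟩⟩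
    · intro hadj
      obtain ⟨k, ⟨ha, hb'⟩ | ⟨ha, hb'⟩⟩ := (h _ _).mp hadj
      · have e1 := hf ha
        have e2 := hf hb'
        exact h1 (by rw [e2, e1])
      · have e1 := hf ha
        have e2 := hf hb'
        exact h2 (by rw [e2, e1])
  | glue G H w' h hG hH ihG ihH =>
    intro hZ
    apply osc_glue G H w' h hDs hD0 hD
    · apply ihG
      intro i j hij ⟨y, hy⟩ ⟨z, hz⟩ hnadj
      apply hZ i j hij ⟨y, Or.inl hy⟩ ⟨z, Or.inl hz⟩
      rintro (h1 | h1)
      · exact hnadj h1
      · exact hij ((h i y j hy h1).trans (h j z i hz h1.symm).symm)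
    · apply ihH
      intro i j hij ⟨y, hy⟩ ⟨z, hz⟩ hnadj
      apply hZ i j hij ⟨y, Or.inr hy⟩ ⟨z, Or.inr hz⟩
      rintro (h1 | h1)
      · exact hij ((h i j y h1 hy).trans (h j i z h1.symm hz).symm)
      · exact hnadj h1

/-- base case -/
theorem q_base (hPLANE : S_PLANE) (hSPHS : S_SPHS) {G : SimpleGraph V} (hG : Blk G)
    {B R M T : V → V → ℝ} (hB : Psd B) (hB0 : ∀ i j, 0 ≤ B i j)
    (hBG : ∀ i j, i ≠ j → ¬ G.Adj i j → B i j = 0)
    (hR : Psd R) (hRG : ∀ i j, i ≠ j → ¬ G.Adj i j → R i j ≤ 0)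
    (hM : Psd M) (hT : Psd T) (hT0 : ∀ i j, 0 ≤ T i j) {d : ℝ} (hd : 0 ≤ d) (x : V → ℝ) :
    0 ≤ ∑ i, ∑ j, x i * (B i j * R i j * M i j * T i j ^ d) * x j := by
  classical
  have hM0 : ∀ i, 0 ≤ M i i := psd_diag hM
  have hTd : ∀ i j, T i j ^ d * T i j ^ d ≤ T i i ^ d * T j j ^ d := by
    intro i j
    rw [← Real.mul_rpow (hT0 i j) (hT0 i j), ← Real.mul_rpow (hT0 i i) (hT0 j j)]
    exact Real.rpow_le_rpow (mul_self_nonneg _) (psd_two hT i j) hd
  obtain ⟨N, hN, hN1, hN2⟩ := osc_all2 hPLANE hSPHS hR (E := fun i j => M i j * T i j ^ d)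
    (by intro i j; rw [hM.1 i j, hT.1 i j])
    (fun i => mul_nonneg (hM0 i) (Real.rpow_nonneg (hT0 i i) _))
    (by
      intro i j
      skip
      have h1 := psd_two hM i j
      have h2 := hTd i j
      calc M i j * T i j ^ d * (M i j * T i j ^ d) = (M i j * M i j) * (T i j ^ d * T i j ^ d) := by
            ring
        _ ≤ (M i i * M j j) * (T i i ^ d * T j j ^ d) :=
            mul_le_mul h1 h2 (mul_self_nonneg _) (mul_nonneg (hM0 i) (hM0 j))
        _ = _ := by ring)
    x G hG (fun i j hij _ _ hn => hRG i j hij hn)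
  have h1 := psd_pair hB hN
  refine le_trans h1 ?_
  apply sum_le_sum; intro i _
  apply sum_le_sum; intro j _
  have e : x i * (B i j * R i j * M i j * T i j ^ d) * x j =
      B i j * (x i * x j * (R i j * (M i j * T i j ^ d))) := by ring
  rw [e]
  by_cases hij : i = j
  · subst hij
    rw [hN1 i]
  · by_cases hadj : G.Adj i j
    · exact mul_le_mul_of_nonneg_left (hN2 i j hadj) (hB0 i j)
    · rw [hBG i j hij hadj]; simp

end E8h27.CB
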