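import Pool.Agent.E8helper27.CB.Qb

/-! Strong form: adding vertices (helper27, project CB2). -/

namespace E8h27.CB

open Finset

variable {V : Type} [Fintype V]

/-- the graph `G` without the edges at the vertices of `K` -/
def minus {V : Type} (G : SimpleGraph V) (K : Finset V) : SimpleGraph V where
  Adj i j := G.Adj i j ∧ i ∉ K ∧ j ∉ K
  symm := ⟨fun _ _ h => ⟨h.1.symm, h.2.2, h.2.1⟩⟩
  loopless := ⟨fun _ h => h.1.ne rfl⟩

/-- derivative argument along `Z + t D` -/
theorem fh_path {E Z D : V → V → ℝ} {g : ℝ} (hg : 1 ≤ g) (x : V → ℝ)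
    (hpos : ∀ t : ℝ, 0 < t → t < 1 →
      0 ≤ ∑ i, ∑ j, x i * (E i j * D i j * (Z i j + t * D i j) ^ (g - 1)) * x j) :
    ∑ i, ∑ j, x i * (E i j * Z i j ^ g) * x j ≤
      ∑ i, ∑ j, x i * (E i j * (Z i j + D i j) ^ g) * x j := by
  set F : ℝ → ℝ := fun t => ∑ i, ∑ j, x i * (E i j * (Z i j + t * D i j) ^ g) * x j with hF
  have hder : ∀ t : ℝ, HasDerivAt F
      (∑ i, ∑ j, x i * (E i j * (D i j * g * (Z i j + t * D i j) ^ (g - 1))) * x j) t := by
    intro t
    simp only [hF]
    apply HasDerivAt.fun_sum; intro i _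
    apply HasDerivAt.fun_sum; intro j _
    apply HasDerivAt.mul_const
    apply HasDerivAt.const_mul
    apply HasDerivAt.const_mul
    have h1 : HasDerivAt (fun t : ℝ => Z i j + t * D i j) (D i j) t := by
      have h2 := ((hasDerivAt_id t).mul_const (D i j)).const_add (Z i j)
      simpa using h2
    exact h1.rpow_const (Or.inr hg)
  have hmono : MonotoneOn F (Set.Icc 0 1) := by
    apply monotoneOn_of_deriv_nonneg (convex_Icc 0 1)
    · intro t _
      exact (hder t).continuousAt.continuousWithinAt
    · intro t _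
      exact (hder t).differentiableAt.differentiableWithinAt
    · intro t ht
      rw [interior_Icc] at ht
      rw [(hder t).deriv]
      have h1 := hpos t ht.1 ht.2
      have e : ∑ i, ∑ j, x i * (E i j * (D i j * g * (Z i j + t * D i j) ^ (g - 1))) * x j =
          g * ∑ i, ∑ j, x i * (E i j * D i j * (Z i j + t * D i j) ^ (g - 1)) * x j := by
        rw [mul_sum]
        apply sum_congr rfl; intro i _
        rw [mul_sum]
        apply sum_congr rfl; intro j _
        ring
      rw [e]
      exact mul_nonneg (by linarith) h1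
  have h01 := hmono (Set.left_mem_Icc.mpr zero_le_one) (Set.right_mem_Icc.mpr zero_le_one)
    zero_le_one
  simp only [hF] at h01
  simpa using h01

/-- deleting row and column `v0` -/
def cut [DecidableEq V] (v0 : V) (N : V → V → ℝ) : V → V → ℝ :=
  fun i j => if i = v0 ∨ j = v0 then 0 else N i j

theorem psd_cut [DecidableEq V] {N : V → V → ℝ} (hN : Psd N) (v0 : V) : Psd (cut v0 N) := by
  constructor
  · intro i j
    simp only [cut]
    by_cases h : i = v0 ∨ j = v0
    · rw [if_pos h, if_pos (Or.comm.mp h)]
    · rw [if_neg h, if_neg (fun h' => h (Or.comm.mp h')), hN.1 i j]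
  · intro x
    have h1 := hN.2 (fun i => if i = v0 then 0 else x i)
    refine le_of_le_of_eq h1 ?_
    apply sum_congr rfl; intro i _
    apply sum_congr rfl; intro j _
    simp only [cut]
    by_cases hi : i = v0
    · simp [hi]
    · by_cases hj : j = v0
      · simp [hj]
      · simp [hi, hj]

/-- Schur complement of the entry `v0` -/
theorem psd_schur {N : V → V → ℝ} (hN : Psd N) (v0 : V) (h0 : 0 < N v0 v0) :
    Psd (fun i j => N i j - N i v0 * N v0 j / N v0 v0) := by
  classical
  constructor
  · intro i j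
    simp only
    rw [hN.1 i j, hN.1 i v0, hN.1 v0 j]
    ring
  · intro x
    have h1 := hN.2 (fun a => x a + (if a = v0 then -(∑ b, x b * N b v0) / N v0 v0 else 0))
    rw [form_add hN.1] at h1
    set α := ∑ b, x b * N b v0 with hα
    have e : ∑ i, ∑ j, x i * (N i j - N i v0 * N v0 j / N v0 v0) * x j =
        ∑ i, ∑ j, x i * N i j * x j - α * α / N v0 v0 := by
      rw [hα, sum_mul_sum, sum_div, ← sum_sub_distrib]
      apply sum_congr rfl; intro i _
      rw [sum_div, ← sum_sub_distrib]
      apply sum_congr rfl; intro j _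
      rw [hN.1 v0 j]
      ring
    rw [e]
    refine le_of_le_of_eq h1 ?_
    field_simp
    ring

theorem psd_mul {A C : V → V → ℝ} (hA : Psd A) (hC : Psd C) :
    Psd (fun i j => A i j * C i j) := by
  classical
  have h1 : (Matrix.of A).PosSemidef := (psd_iff _).mpr hA
  have h2 : (Matrix.of C).PosSemidef := (psd_iff _).mpr hC
  have h3 := (psd_iff _).mp (h1.hadamard h2)
  exact h3

theorem psd_rank {N : V → V → ℝ} (hN : Psd N) (v0 : V) (h0 : 0 < N v0 v0) (t : ℝ)
    (ht0 : 0 ≤ t) (ht1 : t ≤ 1) :
    Psd (fun i j => N i v0 * N v0 j / N v0 v0 + t * (N i j - N i v0 * N v0 j / N v0 v0)) := by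
  have hS := psd_schur hN v0 h0
  constructor
  · intro i j
    have h1 : N i j - N i v0 * N v0 j / N v0 v0 = N j i - N j v0 * N v0 i / N v0 v0 := hS.1 i j
    simp only
    rw [h1, hN.1 i v0, hN.1 v0 j]
    ring
  · intro x
    have h1 := hS.2 x
    have e : ∑ i, ∑ j, x i * (N i v0 * N v0 j / N v0 v0 +
        t * (N i j - N i v0 * N v0 j / N v0 v0)) * x j =
        (∑ i, x i * N i v0) * (∑ i, x i * N i v0) / N v0 v0 +
        t * ∑ i, ∑ j, x i * (N i j - N i v0 * N v0 j / N v0 v0) * x j := by
      rw [sum_mul_sum, sum_div, mul_sum, ← sum_add_distrib]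
      apply sum_congr rfl; intro i _
      rw [sum_div, mul_sum, ← sum_add_distrib]
      apply sum_congr rfl; intro j _
      rw [hN.1 v0 j]
      ring
    rw [e]
    exact add_nonneg (div_nonneg (mul_self_nonneg _) h0.le) (mul_nonneg ht0 h1)

theorem row_zero {N : V → V → ℝ} (hN : Psd N) {v0 : V} (h0 : N v0 v0 = 0) (j : V) :
    N v0 j = 0 ∧ N j v0 = 0 := by
  have h1 := psd_two hN v0 j
  rw [h0, zero_mul] at h1
  have h2 : N v0 j = 0 := by nlinarith [mul_self_nonneg (N v0 j)]
  exact ⟨h2, by rw [hN.1 j v0]; exact h2⟩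

theorem rank_form {E N : V → V → ℝ} (hE : Psd E) (hN : Psd N) (hN0 : ∀ i j, 0 ≤ N i j) {v0 : V}
    (h0 : 0 < N v0 v0) (g : ℝ) (x : V → ℝ) :
    0 ≤ ∑ i, ∑ j, x i * (E i j * (N i v0 * N v0 j / N v0 v0) ^ g) * x j := by
  have hp : 0 < N v0 v0 ^ g := Real.rpow_pos_of_pos h0 g
  have h1 := hE.2 (fun i => x i * N i v0 ^ g)
  have e : ∑ i, ∑ j, x i * (E i j * (N i v0 * N v0 j / N v0 v0) ^ g) * x j =
      (∑ i, ∑ j, (x i * N i v0 ^ g) * E i j * (x j * N j v0 ^ g)) / N v0 v0 ^ g := by
    rw [sum_div]
    apply sum_congr rfl; intro i _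
    rw [sum_div]
    apply sum_congr rfl; intro j _
    rw [Real.div_rpow (mul_nonneg (hN0 _ _) (hN0 _ _)) h0.le,
      Real.mul_rpow (hN0 _ _) (hN0 _ _), hN.1 v0 j]
    ring
  rw [e]
  exact div_nonneg h1 hp.le

theorem tt_nonneg {N : V → V → ℝ} (hN0 : ∀ i j, 0 ≤ N i j) {v0 : V} (h0 : 0 < N v0 v0) {t : ℝ}
    (ht0 : 0 ≤ t) (ht1 : t ≤ 1) (i j : V) :
    0 ≤ N i v0 * N v0 j / N v0 v0 + t * (N i j - N i v0 * N v0 j / N v0 v0) := by
  have h1 : 0 ≤ N i v0 * N v0 j / N v0 v0 := div_nonneg (mul_nonneg (hN0 _ _) (hN0 _ _)) h0.le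
  have h2 := hN0 i j
  nlinarith [mul_nonneg (sub_nonneg.mpr ht1) h1, mul_nonneg ht0 h2]

/-- The mixed property, after adding the vertices of `K`. -/
theorem q_star (hPLANE : S_PLANE) (hSPHS : S_SPHS) [DecidableEq V] (K : Finset V) :
    ∀ (G : SimpleGraph V), Blk (minus G K) →
    ∀ (B R M T : V → V → ℝ), Psd B → (∀ i j, 0 ≤ B i j) →
    (∀ i j, i ≠ j → ¬ G.Adj i j → B i j = 0) →
    Psd R → (∀ i j, i ≠ j → ¬ G.Adj i j → R i j ≤ 0) →
    Psd M → Psd T → (∀ i j, 0 ≤ T i j) → ∀ d : ℝ, (K.card : ℝ) ≤ d → ∀ x : V → ℝ,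
    0 ≤ ∑ i, ∑ j, x i * (B i j * R i j * M i j * T i j ^ d) * x j := by
  induction K using Finset.induction_on with
  | empty =>
    intro G hG B R M T hB hB0 hBG hR hRG hM hT hT0 d hd x
    have hG' : Blk G := by
      have : minus G ∅ = G := by
        ext i j
        simp [minus]
      rwa [this] at hG
    exact q_base hPLANE hSPHS hG' hB hB0 hBG hR hRG hM hT hT0 (by simpa using hd) x
  | insert v0 K hv0 ih =>
    intro G hG B R M T hB hB0 hBG hR hRG hM hT hT0 d hd x
    rw [card_insert_of_notMem hv0] at hd
    push_cast at hd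
    have hK0 : (0 : ℝ) ≤ K.card := Nat.cast_nonneg _
    have hd1 : 1 ≤ d := by linarith
    have hG1 : Blk (minus (minus G {v0}) K) := by
      have : minus (minus G {v0}) K = minus G (insert v0 K) := by
        ext i j
        simp only [minus, mem_singleton, mem_insert, not_or]
        tauto
      rwa [this]
    have hcB0 : ∀ i j, 0 ≤ cut v0 B i j := by
      intro i j
      simp only [cut]
      split_ifs
      · exact le_refl _
      · exact hB0 i j
    have hcBG : ∀ i j, i ≠ j → ¬ (minus G {v0}).Adj i j → cut v0 B i j = 0 := by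
      intro i j hij hadj
      simp only [cut]
      split_ifs with h
      · rfl
      · push Not at h
        apply hBG i j hij
        intro hg
        exact hadj ⟨hg, by simpa using h.1, by simpa using h.2⟩
    have hcRG : ∀ i j, i ≠ j → ¬ (minus G {v0}).Adj i j → cut v0 R i j ≤ 0 := by
      intro i j hij hadj
      simp only [cut]
      split_ifs with h
      · exact le_refl _
      · push Not at h
        apply hRG i j hij
        intro hg
        exact hadj ⟨hg, by simpa using h.1, by simpa using h.2⟩
    by_cases hT00 : T v0 v0 = 0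
    · have h1 := ih (minus G {v0}) hG1 (cut v0 B) (cut v0 R) M T (psd_cut hB v0) hcB0 hcBG
        (psd_cut hR v0) hcRG hM hT hT0 d (by linarith) x
      refine le_of_le_of_eq h1 ?_
      apply sum_congr rfl; intro i _
      apply sum_congr rfl; intro j _
      simp only [cut]
      by_cases h : i = v0 ∨ j = v0
      · have hz : T i j ^ d = 0 := by
          have : T i j = 0 := by
            rcases h with h | h
            · rw [h]; exact (row_zero hT hT00 j).1
            · rw [h]; exact (row_zero hT hT00 i).2
          rw [this, Real.zero_rpow (by linarith)]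
        rw [hz]; simp
      · simp [h]
    · have hTp : 0 < T v0 v0 := lt_of_le_of_ne (hT0 _ _) (Ne.symm hT00)
      have hE : Psd (fun i j => B i j * R i j * M i j) := psd_mul (psd_mul hB hR) hM
      have h0 := rank_form hE hT hT0 hTp d x
      have hp := fh_path (E := fun i j => B i j * R i j * M i j)
        (Z := fun i j => T i v0 * T v0 j / T v0 v0)
        (D := fun i j => T i j - T i v0 * T v0 j / T v0 v0) hd1 x (by
          intro t ht0 ht1
          have h1 := ih (minus G {v0}) hG1 (cut v0 B) (cut v0 R)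
            (fun i j => M i j * (T i j - T i v0 * T v0 j / T v0 v0))
            (fun i j => T i v0 * T v0 j / T v0 v0 + t * (T i j - T i v0 * T v0 j / T v0 v0))
            (psd_cut hB v0) hcB0 hcBG (psd_cut hR v0) hcRG (psd_mul hM (psd_schur hT v0 hTp))
            (psd_rank hT v0 hTp t ht0.le ht1.le) (tt_nonneg hT0 hTp ht0.le ht1.le) (d - 1)
            (by linarith) x
          refine le_of_le_of_eq h1 ?_
          apply sum_congr rfl; intro i _
          apply sum_congr rfl; intro j _
          simp only [cut]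
          by_cases h : i = v0 ∨ j = v0
          · have hz : T i j - T i v0 * T v0 j / T v0 v0 = 0 := by
              rcases h with h | h
              · rw [h]; field_simp; ring
              · rw [h]; field_simp; ring
            rw [hz]; simp
          · simp only [h, if_false]; ring)
      have e : ∑ i, ∑ j, x i * (B i j * R i j * M i j *
          (T i v0 * T v0 j / T v0 v0 + (T i j - T i v0 * T v0 j / T v0 v0)) ^ d) * x j =
          ∑ i, ∑ j, x i * (B i j * R i j * M i j * T i j ^ d) * x j := by
        apply sum_congr rfl; intro i _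
        apply sum_congr rfl; intro j _
        congr 3
        ring_nf
      rw [← e]
      exact le_trans h0 hp

theorem psd_one : Psd (fun _ _ : V => (1:ℝ)) := by
  refine ⟨fun _ _ => rfl, fun x => ?_⟩
  have e : ∑ i, ∑ j, x i * 1 * x j = (∑ i, x i) * (∑ j, x j) := by
    rw [sum_mul_sum]
    apply sum_congr rfl; intro i _
    apply sum_congr rfl; intro j _
    ring
  rw [e]
  exact mul_self_nonneg _

/-- powers `b ≥ |K| + 2` for graphs with one more vertex `v0` -/
theorem pow_pos_K (hPLANE : S_PLANE) (hSPHS : S_SPHS) [DecidableEq V] (K : Finset V)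
    (G : SimpleGraph V) (v0 : V) (hG : Blk (minus G (insert v0 K)))
    {A : V → V → ℝ} (hA : Psd A) (hA0 : ∀ i j, 0 ≤ A i j)
    (hAG : ∀ i j, i ≠ j → ¬ G.Adj i j → A i j = 0) {b : ℝ} (hb : (K.card : ℝ) + 2 ≤ b)
    (x : V → ℝ) :
    0 ≤ ∑ i, ∑ j, x i * A i j ^ b * x j := by
  have hK0 : (0 : ℝ) ≤ K.card := Nat.cast_nonneg _
  have hG1 : Blk (minus (minus G {v0}) K) := by
    have : minus (minus G {v0}) K = minus G (insert v0 K) := by
      ext i j
      simp only [minus, mem_singleton, mem_insert, not_or]
      tauto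
    rwa [this]
  have hcB0 : ∀ i j, 0 ≤ cut v0 A i j := by
    intro i j
    simp only [cut]
    split_ifs
    · exact le_refl _
    · exact hA0 i j
  have hcBG : ∀ i j, i ≠ j → ¬ (minus G {v0}).Adj i j → cut v0 A i j = 0 := by
    intro i j hij hadj
    simp only [cut]
    split_ifs with h
    · rfl
    · push Not at h
      apply hAG i j hij
      intro hg
      exact hadj ⟨hg, by simpa using h.1, by simpa using h.2⟩
  by_cases h00 : A v0 v0 = 0
  · have h1 := q_star hPLANE hSPHS K (minus G {v0}) hG1 (cut v0 A) (cut v0 A) (fun _ _ => 1) A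
      (psd_cut hA v0) hcB0 hcBG (psd_cut hA v0) (fun i j hij hadj => (hcBG i j hij hadj).le)
      psd_one hA hA0 (b - 2) (by linarith) x
    refine le_of_le_of_eq h1 ?_
    apply sum_congr rfl; intro i _
    apply sum_congr rfl; intro j _
    have hcut : cut v0 A i j = A i j := by
      simp only [cut]
      split_ifs with h
      · rcases h with h | h
        · rw [h]; exact (row_zero hA h00 j).1.symm
        · rw [h]; exact (row_zero hA h00 i).2.symm
      · rfl
    rw [hcut]
    have h3 : A i j * A i j * A i j ^ (b - 2) = A i j ^ b := by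
      have e1 := rpow_split (hA0 i j) (show 1 ≤ b - 1 by linarith)
      have e2 := rpow_split (hA0 i j) (show 1 ≤ b by linarith)
      have e3 : b - 1 - 1 = b - 2 := by ring
      rw [e3] at e1
      rw [mul_assoc, e1, e2]
    rw [mul_one, h3]
  · have hp : 0 < A v0 v0 := lt_of_le_of_ne (hA0 _ _) (Ne.symm h00)
    have h0 := rank_form hA hA hA0 hp (b - 1) x
    have hpth := fh_path (E := A) (Z := fun i j => A i v0 * A v0 j / A v0 v0)
      (D := fun i j => A i j - A i v0 * A v0 j / A v0 v0) (show 1 ≤ b - 1 by linarith) x (by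
        intro t ht0 ht1
        have h1 := q_star hPLANE hSPHS K (minus G {v0}) hG1 (cut v0 A)
          (fun i j => A i j - A i v0 * A v0 j / A v0 v0) (fun _ _ => 1)
          (fun i j => A i v0 * A v0 j / A v0 v0 + t * (A i j - A i v0 * A v0 j / A v0 v0))
          (psd_cut hA v0) hcB0 hcBG (psd_schur hA v0 hp) (by
            intro i j hij hadj
            by_cases h : i = v0 ∨ j = v0
            · have hz : A i j - A i v0 * A v0 j / A v0 v0 = 0 := by
                rcases h with h | h
                · rw [h]; field_simp; ring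
                · rw [h]; field_simp; ring
              rw [hz]
            · push Not at h
              have hz : A i j = 0 := by
                apply hAG i j hij
                intro hg
                exact hadj ⟨hg, by simpa using h.1, by simpa using h.2⟩
              rw [hz, zero_sub]
              exact neg_nonpos.mpr (div_nonneg (mul_nonneg (hA0 _ _) (hA0 _ _)) hp.le))
          psd_one (psd_rank hA v0 hp t ht0.le ht1.le) (tt_nonneg hA0 hp ht0.le ht1.le) (b - 1 - 1)
          (by linarith) x
        refine le_of_le_of_eq h1 ?_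
        apply sum_congr rfl; intro i _
        apply sum_congr rfl; intro j _
        simp only [cut]
        by_cases h : i = v0 ∨ j = v0
        · have hz : A i j - A i v0 * A v0 j / A v0 v0 = 0 := by
            rcases h with h | h
            · rw [h]; field_simp; ring
            · rw [h]; field_simp; ring
          rw [hz]; simp
        · simp only [h, if_false]; ring)
    have e : ∑ i, ∑ j, x i * (A i j *
        (A i v0 * A v0 j / A v0 v0 + (A i j - A i v0 * A v0 j / A v0 v0)) ^ (b - 1)) * x j =
        ∑ i, ∑ j, x i * A i j ^ b * x j := by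
      apply sum_congr rfl; intro i _
      apply sum_congr rfl; intro j _
      have h1 : A i v0 * A v0 j / A v0 v0 + (A i j - A i v0 * A v0 j / A v0 v0) = A i j := by ring
      rw [h1, rpow_split (hA0 i j) (show 1 ≤ b by linarith)]
    rw [← e]
    exact le_trans h0 hpth

end E8h27.CB
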