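import Mathlib

/-! Critical exponents of cones over bipartite graphs (MP_773c61_co): definitions and the
statements of the pieces (project CB). -/

namespace E8h27.CB

/-- The power `x ^ b` of a real number `x`, with the convention `0 ^ b = 0` for every `b`. -/
noncomputable def pw (x b : ℝ) : ℝ := if x = 0 then 0 else x ^ b

/-- `A` belongs to `P_G([0, ∞))`: it is a positive semidefinite real matrix with nonnegative
entries, and its entry at `i, j` is zero whenever `i ≠ j` are not adjacent in `G`. -/
def InP {V : Type} (G : SimpleGraph V) (A : Matrix V V ℝ) : Prop :=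
  A.PosSemidef ∧ (∀ i j, 0 ≤ A i j) ∧ ∀ i j, i ≠ j → ¬ G.Adj i j → A i j = 0

/-- Every entrywise power `b ≥ a` maps `P_G([0, ∞))` into the positive semidefinite matrices. -/
def Good {V : Type} (G : SimpleGraph V) (a : ℝ) : Prop :=
  ∀ b, a ≤ b → ∀ A : Matrix V V ℝ, InP G A → (A.map (fun x => pw x b)).PosSemidef

/-- `c` is the critical exponent of `G`. -/
def IsCE {V : Type} (G : SimpleGraph V) (c : ℝ) : Prop := IsLeast {a : ℝ | Good G a} c

/-- The graph `G'`: one new vertex `none`, adjacent to every vertex of `G`. -/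
def cone {V : Type} (G : SimpleGraph V) : SimpleGraph (Option V) where
  Adj x y := match x, y with
    | none, none => False
    | none, some _ => True
    | some _, none => True
    | some u, some v => G.Adj u v
  symm := ⟨by
    intro x y h
    match x, y, h with
    | none, some _, _ => exact trivial
    | some _, none, _ => exact trivial
    | some u, some v, h => exact SimpleGraph.Adj.symm (G := G) h⟩
  loopless := ⟨by
    intro x h
    match x, h with
    | some u, h => exact G.loopless.irrefl u h⟩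

/-- Positive semidefinite, in elementary terms (used inside the proofs). -/
def Psd {V : Type} [Fintype V] (M : V → V → ℝ) : Prop :=
  (∀ i j, M i j = M j i) ∧ ∀ x : V → ℝ, 0 ≤ ∑ i, ∑ j, x i * M i j * x j

/-- FH (FitzGerald and Horn): on at most `n + 2` indices all powers `≥ n` preserve positivity. -/
def S_FH : Prop :=
  ∀ (n : ℕ) (V : Type) [Fintype V] (A : V → V → ℝ) (g : ℝ), Fintype.card V ≤ n + 2 →
    (n : ℝ) ≤ g → (∀ i j, 0 ≤ A i j) → Psd A → Psd (fun i j => A i j ^ g)

/-- LOWK: if `S` is a clique with `k + 1` vertices and `p ≠ q` outside `S` are both adjacent to all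
of `S`, no exponent strictly between `k` and `k + 1` preserves positivity. -/
def S_LOWK : Prop :=
  ∀ (k : ℕ) (b : ℝ), (k : ℝ) < b → b < k + 1 → ∀ (V : Type) [Fintype V] (G : SimpleGraph V)
    (S : Finset V) (p q : V), S.card = k + 1 → (∀ s ∈ S, ∀ t ∈ S, s ≠ t → G.Adj s t) →
    p ∉ S → q ∉ S → p ≠ q → (∀ s ∈ S, G.Adj s p ∧ G.Adj s q) →
    ∃ A : V → V → ℝ, Psd A ∧ (∀ i j, 0 ≤ A i j) ∧
      (∀ i j, i ≠ j → ¬ G.Adj i j → A i j = 0) ∧
      ∃ x : V → ℝ, ∑ i, ∑ j, x i * A i j ^ b * x j < 0

/-- MATCH: the cone over a graph with all degrees at most one; every power `b ≥ 1` works. -/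
def S_MATCH : Prop :=
  ∀ (V : Type) [Fintype V] (G : SimpleGraph V), (∀ u v w, G.Adj u v → G.Adj u w → v = w) →
    ∀ (A : Option V → Option V → ℝ) (b : ℝ), 1 ≤ b → Psd A → (∀ i j, 0 ≤ A i j) →
      (∀ u v : V, u ≠ v → ¬ G.Adj u v → A (some u) (some v) = 0) →
      ∀ x : Option V → ℝ, 0 ≤ ∑ i, ∑ j, x i * A i j ^ b * x j

end E8h27.CB
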